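import Pool.Agent.H16.TT.TqB

/-!
# TQ, general form: the inequality

`TgOk`: a law `p` with lines `L`, times `th`, contexts `b`, coarse contexts `b0`, heights `hgt`; the
heights `Z` over the record `R`, which is coarser than `b0`; `E` is the type of the directions and
`Q e w r` the quotient by the direction `e`, over the record `r` and the slow digits `w` (with the
time). `N` other times.
-/

set_option autoImplicit false

namespace Pool.TQ

open Finset Real Matrix
open Pool.Agent.H49.Ent Pool.Agent.H32.Dense Pool.STK Pool.POT Pool.FAD Pool.SLO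
open Pool.K2S (Pe)

variable {c N : ℕ}

section tuples

variable {Ω Λ β τ S : Type} [Fintype Ω] {p : Ω → ℝ} {L : Ω → Λ} {b : Ω → β} {th : Ω → τ} {d : ℝ}

/-- **The other times**, any number. -/
theorem tup_miN (hp : ∀ ω, 0 ≤ p ω) (hb : Det p L b) (h : MI p th L b ≤ d) (X : Ω → S) :
    MI (tup p L N) (fun w => X (w 0)) (fun w (j : Fin N) => th (w j.succ))
      (fun w => b (w 0)) ≤ N * d := by
  have h0 : ∀ w, 0 ≤ tup p L N w := fun w => tup_nonneg hp L _ w
  have hbb : Det (tup p L N) (fun w => L (w 0)) (fun w => b (w 0)) :=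
    (im_tup hp L N 0).det h0 hb
  have e0 : MI (tup p L N) (fun w => X (w 0)) (fun w (j : Fin N) => th (w j.succ))
      (fun w => b (w 0)) ≤ MI (tup p L N) (fun w => (L (w 0), X (w 0)))
        (fun w (j : Fin N) => th (w j.succ)) (fun w => b (w 0)) := by
    refine MI_le_left h0 (X := fun w => (L (w 0), X (w 0))) ?_
    intro w w' _ _ e
    simp only [Prod.mk.injEq] at e
    exact e.1.2
  refine e0.trans ?_
  rw [MI_chain_left h0]
  have e1 := tup_cost hp th hb h N
  have e3 : MI (tup p L N) (fun w => X (w 0)) (fun w (j : Fin N) => th (w j.succ))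
      (fun w => (L (w 0), b (w 0))) = 0 := by
    cases N with
    | zero =>
      rw [MI_symm h0, MI_zero h0]
      intro w w' _ _ _
      funext j
      exact j.elim0
    | succ N =>
      have e2 := tup_ci0 hp L N X (fun (w : Fin (N + 1) → Ω) (j : Fin (N + 1)) => th (w j))
      rw [← e2]
      refine MI_congr h0 ?_ ?_ ?_ ?_ ?_ ?_
      · intro w w' _ _ e
        simp only [Prod.mk.injEq] at e ⊢
        exact ⟨e.1, e.2.1⟩
      · intro w w' x x' e
        simp only [Prod.mk.injEq] at e ⊢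
        exact ⟨e.1, e.2, hbb w w' x x' e.2⟩
      · intro w w' _ _ e
        simp only [Prod.mk.injEq] at e ⊢
        exact ⟨e.1, e.2.1⟩
      · intro w w' x x' e
        simp only [Prod.mk.injEq] at e ⊢
        exact ⟨e.1, e.2, hbb w w' x x' e.2⟩
      · intro w w' _ _ e
        exact (Prod.ext_iff.1 e).1
      · intro w w' x x' e
        exact Prod.ext e (hbb w w' x x' e)
  rw [e3]
  linarith

end tuples

variable {Ω Λ τ B B0 ρ β E : Type} [Fintype Ω]

/-- The hypotheses, general form. -/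
structure TgOk (p : Ω → ℝ) (L : Ω → Λ) (th : Ω → τ) (b : Ω → B) (b0 : Ω → B0)
    (hgt : Ω → Fin c → ℤ) (R : Ω → ρ) (Wd : Ω → β) (Z : Ω → Fin c → ℤ)
    (Q : E → β → ρ → (Fin c → ℤ) → Fin c → ℤ) (X : ℕ) (C d h x ε ϖ : ℝ) : Prop where
  law : IsLaw p
  Lb : Det p L b
  bb0 : Det p b b0
  b0R : Det p b0 R
  h0 : MI p th L b ≤ d
  h00 : MI p th L b0 ≤ d
  Z_b : ∀ ω i, |(Z ω i : ℝ)| ≤ C * 2 ^ X
  Q_b : ∀ ω e i, |(Q e (Wd ω) (R ω) (Z ω) i : ℝ)| ≤ C * 2 ^ X
  rel : ∀ ω ω', 0 < p ω → 0 < p ω' → Z ω = Z ω' → Wd ω = Wd ω' → th ω = th ω' → b ω = b ω' →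
    ∀ i, |((hgt ω i - hgt ω' i : ℤ) : ℝ)| ≤ C
  wd : MI p hgt Wd (fun ω => (th ω, b ω)) ≤ d
  ir : MI p (fun ω => (Z ω, Wd ω)) b0 R ≤ d
  b1 : ∀ G : Ω → Prop, ϖ ≤ Pe p G →
    CH (cond p G True) Z (fun ω => (Wd ω, R ω)) ≤ (c - h) * X * Real.log 2
  b2 : ∀ f : ρ → E, ∀ G : Ω → Prop, Real.exp (-(ε * X)) ≤ Pe p G →
    (c - 1 - x) * X * Real.log 2 ≤
      CH (cond p G True) (fun ω => Q (f (R ω)) (Wd ω) (R ω) (Z ω)) (fun ω => (Wd ω, R ω))

variable {p : Ω → ℝ} {L : Ω → Λ} {th : Ω → τ} {b : Ω → B} {b0 : Ω → B0}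
  {hgt : Ω → Fin c → ℤ} {R : Ω → ρ} {Wd : Ω → β} {Z : Ω → Fin c → ℤ}
  {Q : E → β → ρ → (Fin c → ℤ) → Fin c → ℤ} {X : ℕ} {C d h x ε ϖ : ℝ}

/-- The bounded terms. -/
noncomputable def bD (c : ℕ) (C : ℝ) : ℝ :=
  c * Real.log (2 * C + 1) + c * Real.log (2 * C + 1)

/-- **The inequality**, general form. -/
theorem tg_ineq (hc : 0 < c) (hH : TgOk p L th b b0 hgt R Wd Z Q X C d h x ε ϖ) (hC : 1 ≤ C)
    (hh : h ≤ 1) (hϖ : 0 < ϖ) {A0 : (Fin N → τ) → Matrix (Fin c) (Fin c) ℝ}
    (hdet : ∀ t, (A0 t).det ≠ 0) (hinv : ∀ t i j, |(A0 t)⁻¹ i j| ≤ 2 ^ X) {e₀ : ℝ}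
    (hbody : DF (tup p L N) (fun _ => Tx c X) (fun w => A0 fun j => th (w j.succ))
        (fun w => xv X (hgt (w 0)))
        (fun w => (b (w 0), (th (w 0), fun j : Fin N => th (w j.succ)))) ≤ e₀)
    {i0 : Fin c} {G : B0 → (Fin N → τ) → Prop} {dir : B0 → (Fin N → τ) → E} {a₀ : ℝ} (ha₀ : 0 < a₀)
    (hG : ∀ s t, G s t → (pv hc (A0 t)).1 = i0 ∧ a₀ ≤ |A0 t i0 (pb hc i0 (A0 t))|)
    (hex : ∀ t ω ω', 0 < p ω → 0 < p ω' → G (b0 ω) t → Wd ω = Wd ω' → th ω = th ω' → b ω = b ω' →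
      pr i0 (dr hc i0 (A0 t)) (hgt ω) = pr i0 (dr hc i0 (A0 t)) (hgt ω') →
      ∀ i, |((Q (dir (b0 ω) t) (Wd ω) (R ω) (Z ω) i -
        Q (dir (b0 ω') t) (Wd ω') (R ω') (Z ω') i : ℤ) : ℝ)| ≤ C)
    {m : ℝ} (hm : 0 < m)
    (hmG : m ≤ Pe (tup p L N) fun w => G (b0 (w 0)) fun j => th (w j.succ))
    {s δ θ η₁ : ℝ} {K : ℕ} (hK : 0 < K) (hs : 0 < s) (hδ : 0 < δ) (hθ : 0 < θ) (hη : 0 < η₁)
    (hμ : Real.exp (-(ε * X)) ≤ m * (Real.exp (-(s + δ)) * η₁)) :
    Real.log a₀ + X * Real.log 2 - (e₀ + |Cc c (c + 1)|) / m - Cc c c ≤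
      (N + 1) * d / m + bD c C + (bU c X C h ϖ m K -
        (1 - ((N + 1) * d / m + (c * Real.log (4 * (C * 2 ^ X) + 1)) / θ + 2) / s -
          (2 * s / δ + 2) * η₁) *
        (Real.exp (-δ) * bL c X x ε m (Real.exp (-(s + δ)) * η₁)) + θ * ((N + 1) * d / m)) := by
  classical
  have hp := hH.law
  set q := tup p L N with hq
  have hqL : IsLaw q := tup_isLaw hp L N
  have hq0 := hqL.nonneg
  have him : Im q p (fun w => w 0) := im_tup hp.nonneg L N 0
  set ts : (Fin (N + 1) → Ω) → Fin N → τ := fun w j => th (w j.succ) with hts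
  set Gw : (Fin (N + 1) → Ω) → Prop := fun w => G (b0 (w 0)) (ts w) with hGw
  set m' := Pe q Gw with hm'
  have hm'0 : 0 < m' := hm.trans_le hmG
  have hmm : m ≤ m' := hmG
  set r := cond q Gw True with hr
  have hrL : IsLaw r := cond_law hq0 hm'0
  have hr0 := hrL.nonneg
  have hrq : ∀ w, 0 < r w → 0 < q w ∧ Gw w := fun w hw => by
    have := (cond_pos_iff hq0 Gw True w).1 hw
    exact ⟨this.1, of_eq_true this.2⟩
  have hrle : ∀ w, r w ≤ 1 / m * q w := fun w =>
    (cond_le hq0 w).trans (mul_le_mul_of_nonneg_right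
      (one_div_le_one_div_of_le hm hmm) (hq0 w))
  have hd0 : 0 ≤ d := (MI_nonneg hp.nonneg _ _ _).trans hH.h0
  have hNd : 0 ≤ ((N : ℝ) + 1) * d := by positivity
  have hdm : (N + 1) * d / m' ≤ (N + 1) * d / m := div_le_div_of_nonneg_left hNd hm hmm
  have hL0 : Det p L b0 := fun ω ω' a a' e => hH.bb0 ω ω' a a' (hH.Lb ω ω' a a' e)
  -- the informations
  have miN : ∀ {S : Type} (X' : Ω → S), MI q (fun w => X' (w 0)) ts (fun w => b (w 0)) ≤
      N * d := fun X' => tup_miN hp.nonneg hH.Lb hH.h0 X'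
  have miN0 : ∀ {S : Type} (X' : Ω → S), MI q (fun w => X' (w 0)) ts (fun w => b0 (w 0)) ≤
      N * d := fun X' => tup_miN hp.nonneg hL0 hH.h00 X'
  set Y : (Fin (N + 1) → Ω) → B × (τ × (Fin N → τ)) :=
    fun w => (b (w 0), (th (w 0), fun j : Fin N => th (w j.succ))) with hY
  have hdb0 : Det q (fun w => b (w 0)) (fun w => b0 (w 0)) := him.det hq0 hH.bb0
  have hdG : Det q Y Gw := by
    intro w w' a a' e
    simp only [hY, Prod.mk.injEq] at e
    have e1 := hdb0 w w' a a' e.1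
    simp only at e1
    simp only [hGw, hts]
    rw [e1, e.2.2]
  -- (ii) the fibre
  set A : (Fin (N + 1) → Ω) → Matrix (Fin c) (Fin c) ℝ := fun w => A0 fun j => th (w j.succ)
    with hA
  have hdA : Det q Y A := by
    intro w w' _ _ e
    simp only [hY, Prod.mk.injEq] at e
    simp only [hA]
    rw [e.2.2]
  have hdA' : Det r Y A := fun w w' a b e => hdA w w' (hrq w a).1 (hrq w' b).1 e
  have f1 := DF_ev hqL (G := Gw) (T := fun _ => Tx c X) (V := A)
    (fun w => xv X (hgt (w 0))) Y hdG (fun _ _ _ _ _ => rfl) hdA (fun _ => Tx_det c X)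
    (fun w => hdet _) (c := (c : ℝ) + 1) (by positivity)
    (fun w => inc_of_inv (hinv _)) hm'0
  have f2 : DF r (fun _ => Tx c X) A (fun w => xv X (hgt (w 0))) Y ≤
      (e₀ + |Cc c (c + 1)|) / m := by
    refine f1.trans ?_
    have g1 : DF q (fun _ => Tx c X) A (fun w => xv X (hgt (w 0))) Y + |Cc c (c + 1)| ≤
        e₀ + |Cc c (c + 1)| := by linarith [hbody]
    have g2 : 0 ≤ DF q (fun _ => Tx c X) A (fun w => xv X (hgt (w 0))) Y + |Cc c (c + 1)| := by
      have := DF_ge hqL.nonneg hqL.sum_one (T := fun _ => Tx c X) (V := A)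
        (fun w => xv X (hgt (w 0))) Y (fun _ _ _ _ _ => rfl) hdA (fun _ => Tx_det c X)
        (fun w => hdet _) (c := (c : ℝ) + 1) (by positivity)
        (fun w => inc_of_inv (hinv _))
      have := le_abs_self (Cc c (c + 1))
      linarith
    calc _ ≤ (e₀ + |Cc c (c + 1)|) / m' := div_le_div_of_nonneg_right g1 hm'0.le
      _ ≤ (e₀ + |Cc c (c + 1)|) / m := div_le_div_of_nonneg_left (g2.trans g1) hm hmm
  have f3 := fib hrL X (A := A) (fun w => hgt (w 0)) Y hdA' (fun w => hdet _)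
    (fun w => hinv _) i0 (fun w => pb hc i0 (A w))
    (fun w w' a b e => by
      have := hdA' w w' a b e
      simp only [this]) (fun w => pb_ne hc i0 (hdet _))
  have f4 : Real.log a₀ ≤ Ex r (fun w => Real.log |A w i0 (pb hc i0 (A w))|) := by
    rw [← Ex_const hrL.sum_one (Real.log a₀)]
    refine Ex_mono hr0 fun w hw => ?_
    exact Real.log_le_log ha₀ (hG _ _ (hrq w hw).2).2
  set κ : (Fin (N + 1) → Ω) → Fin c → ℝ := fun w => dr hc i0 (A w) with hκ
  have f5 : CH r (fun w => hgt (w 0)) (fun w =>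
      (pr i0 (fun i => A w i (pb hc i0 (A w)) / A w i0 (pb hc i0 (A w))) (hgt (w 0)), Y w)) =
      CH r (fun w => hgt (w 0)) (fun w => (pr i0 (κ w) (hgt (w 0)), Y w)) := by
    have g : ∀ w, 0 < r w → (fun i => A w i (pb hc i0 (A w)) / A w i0 (pb hc i0 (A w))) =
        κ w := by
      intro w hw
      funext i
      have := (hG _ _ (hrq w hw).2).1
      simp only [hκ]
      unfold dr
      rw [if_pos ⟨hdet _, this⟩]
    refine CH_congr hr0 (fun _ _ _ _ e => (Prod.ext_iff.mp e).1)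
      (fun _ _ _ _ e => (Prod.ext_iff.mp e).1) ?_ ?_
    · intro w w' a b e
      simp only at e ⊢
      rw [← g w a, ← g w' b]
      exact e
    · intro w w' a b e
      simp only at e ⊢
      rw [g w a, g w' b]
      exact e
  -- (iii), (iv)
  have hdκ : Det r Y κ := fun w w' a b e => by
    have := hdA' w w' a b e
    simp only [hκ, this]
  have g1 := CH_fib hr0 (fun w => hgt (w 0)) (fun w => pr i0 (κ w) (hgt (w 0)))
    (fun w => Wd (w 0)) Y (by
      intro w w' a b e
      have e1 := Prod.ext_iff.mp e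
      have e2 : hgt (w 0) = hgt (w' 0) := e1.1
      have e3 := hdκ w w' a b e1.2
      simp only [e2, e3])
  have g2 : MI q (fun w => hgt (w 0)) (fun w => Wd (w 0)) Y ≤ (N + 1) * d := by
    have a1 : MI q (fun w => hgt (w 0)) (fun w => Wd (w 0)) Y ≤
        MI q (fun w => hgt (w 0)) (fun w => (Wd (w 0), ts w))
          (fun w => (th (w 0), b (w 0))) := by
      have b1 := MI_cond_right hq0 (X := fun w => hgt (w 0))
        (Y := fun w => (Wd (w 0), ts w)) (B := ts) (Z := fun w => (th (w 0), b (w 0)))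
        (fun w w' _ _ e => (Prod.ext_iff.mp (Prod.ext_iff.mp e).1).2)
      refine le_trans (le_of_eq ?_) b1
      refine MI_congr hq0 ?_ ?_ ?_ ?_ ?_ ?_ <;>
      · intro w w' _ _ e
        simp only [hY, hts, Prod.mk.injEq] at e ⊢
        tauto
    have a2 := MI_chain hq0 (fun w => hgt (w 0)) (fun w => Wd (w 0)) ts
      (fun w => (th (w 0), b (w 0)))
    have a3 : MI q (fun w => hgt (w 0)) (fun w => Wd (w 0))
        (fun w => (th (w 0), b (w 0))) ≤ d := by
      rw [him.MI hgt Wd (fun ω => (th ω, b ω))]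
      exact hH.wd
    have a4 : MI q (fun w => hgt (w 0)) ts (fun w => (Wd (w 0), (th (w 0), b (w 0)))) ≤
        N * d := by
      refine le_trans ?_ (miN (fun ω => (hgt ω, (Wd ω, th ω))))
      have b1 := MI_data hq0 (A := fun w => hgt (w 0)) (B := fun w => (Wd (w 0), th (w 0)))
        (X := fun w => (hgt (w 0), (Wd (w 0), th (w 0)))) (Y := ts)
        (Z := fun w => b (w 0))
        (fun w w' _ _ e => (Prod.ext_iff.mp (Prod.ext_iff.mp e).1).1)
        (fun w w' _ _ e => (Prod.ext_iff.mp (Prod.ext_iff.mp e).1).2)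
      refine le_trans (le_of_eq ?_) b1
      refine MI_congr hq0 ?_ ?_ ?_ ?_ ?_ ?_ <;>
      · intro w w' _ _ e
        simp only [Prod.mk.injEq] at e ⊢
        tauto
    linarith
  have g3 : MI r (fun w => hgt (w 0)) (fun w => Wd (w 0)) Y ≤ (N + 1) * d / m := by
    have := MI_ev hqL (G := Gw) (fun w => hgt (w 0)) (fun w => Wd (w 0)) Y
      (fun w w' a b e => hdG w w' a b (Prod.ext_iff.mp e).2) hm'0
    refine this.trans (le_trans ?_ hdm)
    exact div_le_div_of_nonneg_right g2 hm'0.le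
  -- (v)
  have hrp : ∀ w, 0 < r w → 0 < p (w 0) := fun w hw => him.pos hq0 (hrq w hw).1
  set dd : (Fin (N + 1) → Ω) → E := fun w => dir (b0 (w 0)) (ts w) with hdd
  set QQ : (Fin (N + 1) → Ω) → Fin c → ℤ := fun w => Q (dd w) (Wd (w 0)) (R (w 0)) (Z (w 0))
    with hQQ
  have g4 := CH_exch hrL (fun w => hgt (w 0)) (fun w => Z (w 0))
    (fun w => pr i0 (κ w) (hgt (w 0))) QQ
    (fun w => (Wd (w 0), Y w)) (a := C) (b := C) (by
      intro w w' a b e1 e2 i
      simp only [hY, Prod.mk.injEq] at e2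
      exact hH.rel _ _ (hrp w a) (hrp w' b) e1 e2.1 e2.2.2.1 e2.2.1 i) (by
      intro w w' a b e1 e2 i
      have e3 : κ w = κ w' := hdκ w w' a b (Prod.ext_iff.mp e2).2
      simp only [hY, Prod.mk.injEq] at e2
      have e4 : ts w = ts w' := e2.2.2.2
      have h1 := hex (ts w) (w 0) (w' 0) (hrp w a) (hrp w' b) (hrq w a).2 e2.1 e2.2.2.1 e2.2.1
        (by
          have e5 : pr i0 (κ w) (hgt (w 0)) = pr i0 (κ w') (hgt (w' 0)) := e1
          rw [← e3] at e5
          exact e5) i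
      simp only [hQQ, hdd]
      rw [← e4]
      exact h1)
  -- (vi) the record
  have hall : ∀ q' : Ω → ℝ, IsLaw q' → (∀ ω, 0 < q' ω → 0 < p ω) →
      CH q' Z (fun ω => (Wd ω, R ω)) ≤ c * Real.log (4 * (C * 2 ^ X) + 1) :=
    fun q' hq' _ => CH_cnt hq' Z _ fun ω _ i => hH.Z_b ω i
  have hGn : 0 ≤ (c : ℝ) * Real.log (4 * (C * 2 ^ X) + 1) := by
    have : 0 ≤ Real.log (4 * (C * 2 ^ X) + 1) := Real.log_nonneg (by
      have : (0 : ℝ) ≤ C * 2 ^ X := by positivity
      linarith)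
    positivity
  have hb1n : 0 ≤ ((c : ℝ) - h) * X * Real.log 2 := by
    have h1 : (1 : ℝ) ≤ c := by exact_mod_cast hc
    have h2 : 0 ≤ (c : ℝ) - h := by linarith
    have := Real.log_nonneg (show (1 : ℝ) ≤ 2 by norm_num)
    positivity
  have hup : CH r (fun w => Z (w 0)) (fun w => (Wd (w 0), R (w 0))) ≤ bU c X C h ϖ m K :=
    up_up him hp hrL (F := 1 / m) (m₀ := ϖ) (by positivity) hrle hϖ.le hb1n hGn Z
      (fun ω => (Wd ω, R ω)) (fun B hB _ => hH.b1 B hB) hall hK
  -- the direction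
  have hdRb : Det q (fun w => b0 (w 0)) (fun w => R (w 0)) := him.det hq0 hH.b0R
  have hI : CH r (fun w => (Z (w 0), Wd (w 0))) (fun w => R (w 0)) -
      CH r (fun w => (Z (w 0), Wd (w 0))) (fun w => (R (w 0), dd w)) ≤ (N + 1) * d / m := by
    have a1 : MI q (fun w => (Z (w 0), Wd (w 0))) (fun w => (b0 (w 0), ts w))
        (fun w => R (w 0)) ≤ (N + 1) * d := by
      have b1 := MI_chain hq0 (fun w => (Z (w 0), Wd (w 0))) (fun w => b0 (w 0)) ts
        (fun w => R (w 0))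
      have b2 : MI q (fun w => (Z (w 0), Wd (w 0))) (fun w => b0 (w 0)) (fun w => R (w 0)) ≤
          d := by
        rw [him.MI (fun ω => (Z ω, Wd ω)) b0 R]
        exact hH.ir
      have b5 : MI q (fun w => (Z (w 0), Wd (w 0))) ts (fun w => (b0 (w 0), R (w 0))) ≤
          N * d := by
        refine le_trans (le_of_eq ?_) (miN0 (fun ω => (Z ω, Wd ω)))
        refine MI_congr hq0 ?_ ?_ ?_ ?_ ?_ ?_
        · intro w w' _ _ e
          simp only [Prod.mk.injEq] at e ⊢
          tauto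
        · intro w w' a b e
          have e1 := hdRb w w' a b (Prod.ext_iff.mp e).2
          simp only [Prod.mk.injEq] at e e1 ⊢
          tauto
        · intro w w' _ _ e
          simp only [Prod.mk.injEq] at e ⊢
          tauto
        · intro w w' a b e
          have e1 := hdRb w w' a b (Prod.ext_iff.mp e).2
          simp only [Prod.mk.injEq] at e e1 ⊢
          tauto
        · intro w w' _ _ e
          exact (Prod.ext_iff.mp e).1
        · intro w w' a b e
          exact Prod.ext e (hdRb w w' a b e)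
      linarith
    have a2 := MI_ev hqL (G := Gw) (fun w => (Z (w 0), Wd (w 0)))
      (fun w => (b0 (w 0), ts w)) (fun w => R (w 0)) (by
        intro w w' _ _ e
        have e1 := Prod.ext_iff.mp (Prod.ext_iff.mp e).1
        have e2 : b0 (w 0) = b0 (w' 0) := e1.1
        have e3 : ts w = ts w' := e1.2
        simp only [hGw]
        rw [e2, e3]) hm'0
    have a3 : MI r (fun w => (Z (w 0), Wd (w 0))) dd (fun w => R (w 0)) ≤
        MI r (fun w => (Z (w 0), Wd (w 0))) (fun w => (b0 (w 0), ts w)) (fun w => R (w 0)) := by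
      refine MI_le_right hr0 ?_
      intro w w' a b e
      have e1 := Prod.ext_iff.mp (Prod.ext_iff.mp e).1
      have e2 : b0 (w 0) = b0 (w' 0) := e1.1
      have e3 : ts w = ts w' := e1.2
      simp only [hdd]
      rw [e2, e3]
    have a4 : MI r (fun w => (Z (w 0), Wd (w 0))) dd (fun w => R (w 0)) =
        CH r (fun w => (Z (w 0), Wd (w 0))) (fun w => R (w 0)) -
        CH r (fun w => (Z (w 0), Wd (w 0))) (fun w => (R (w 0), dd w)) := by
      unfold MI
      congr 1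
      refine CH_congr hr0 (fun _ _ _ _ e => (Prod.ext_iff.mp e).1)
        (fun _ _ _ _ e => (Prod.ext_iff.mp e).1) ?_ ?_ <;>
      · intro w w' _ _ e
        exact Prod.ext (Prod.ext_iff.mp e).2 (Prod.ext_iff.mp e).1
    rw [← a4]
    refine a3.trans (a2.trans (le_trans ?_ hdm))
    exact div_le_div_of_nonneg_right a1 hm'0.le
  -- the tilt
  have hdRr : ∀ w w', 0 < r w → 0 < r w' → b0 (w 0) = b0 (w' 0) → R (w 0) = R (w' 0) :=
    fun w w' a b e => hdRb w w' (hrq w a).1 (hrq w' b).1 e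
  have hGc : CH r QQ (fun w => (Wd (w 0), (R (w 0), dd w))) ≤
      c * Real.log (4 * (C * 2 ^ X) + 1) :=
    CH_cnt hrL _ _ fun w _ i => hH.Q_b (w 0) (dd w) i
  set μ := Real.exp (-(s + δ)) * η₁ with hμd
  have hμ0 : 0 < μ := by positivity
  have hLn : 0 ≤ bL c X x ε m μ := by
    unfold bL
    refine mul_nonneg ?_ (le_max_left _ _)
    rw [sub_nonneg, div_le_one (by positivity)]
    exact hμ
  have hHyp : ∀ f : ρ → E, ∀ B : (Fin (N + 1) → Ω) → Prop, μ ≤ Pe r B → 0 < Pe r B →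
      bL c X x ε m μ ≤ CH (cond r B True)
        (fun w => Q (f (R (w 0))) (Wd (w 0)) (R (w 0)) (Z (w 0)))
        (fun w => (Wd (w 0), R (w 0))) := by
    intro f B hB hB0
    have hBL : IsLaw (cond r B True) := cond_law hr0 hB0
    have hF : ∀ w, cond r B True w ≤ 1 / Pe r B * (1 / m) * q w := by
      intro w
      refine (cond_le hr0 w).trans ?_
      rw [mul_assoc]
      exact mul_le_mul_of_nonneg_left (hrle w) (by positivity)
    have h1 := up_low him hp hBL (F := 1 / Pe r B * (1 / m)) (m₀ := Real.exp (-(ε * X)))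
      (b := max 0 (((c : ℝ) - 1 - x) * X * Real.log 2)) (by positivity) hF
      (Real.exp_pos _).le (le_max_left _ _) (fun ω => Q (f (R ω)) (Wd ω) (R ω) (Z ω))
      (fun ω => (Wd ω, R ω)) (fun B' hB' hB0' => max_le (CH_nonneg (cond_nonneg hp.nonneg _ _) _ _)
        (hH.b2 f B' hB'))
    refine le_trans ?_ h1
    unfold bL
    refine mul_le_mul_of_nonneg_right ?_ (le_max_left _ _)
    have h2 : 1 / Pe r B * (1 / m) * Real.exp (-(ε * X)) ≤ Real.exp (-(ε * X)) / (m * μ) := by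
      rw [div_mul_div_comm, one_mul, mul_comm (1 / _), ← div_eq_mul_one_div]
      refine div_le_div_of_nonneg_left (Real.exp_pos _).le (by positivity) ?_
      rw [mul_comm (Pe r B)]
      exact mul_le_mul_of_nonneg_left hB hm.le
    linarith
  -- the block of `end_one` contains the slow digits and the record
  have hend := Pool.TT.end_one hrL (fun w => R (w 0)) (fun w => Wd (w 0))
    (fun w => (Z (w 0), (Wd (w 0), R (w 0)))) dd (fun w => (Wd (w 0), Y w))
    (fun (e : E) (a : (Fin c → ℤ) × (β × ρ)) => Q e a.2.1 a.2.2 a.1) (ι := (N + 1) * d / m)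
    (θ := θ) (G := c * Real.log (4 * (C * 2 ^ X) + 1)) (s := s) (δ := δ) (η₁ := η₁)
    (b := bL c X x ε m μ) (b₁ := bU c X C h ϖ m K) (e₂ := 0) (by
      refine le_trans (le_of_eq ?_) hI
      congr 1 <;>
      · refine CH_congr hr0 ?_ ?_ (fun _ _ _ _ e => e) (fun _ _ _ _ e => e) <;>
        · intro w w' _ _ e
          simp only [Prod.mk.injEq] at e ⊢
          tauto) hGc hθ hs hδ hη.le hLn hHyp (by
      refine le_trans (le_of_eq ?_) hup
      refine CH_congr hr0 ?_ ?_ (fun _ _ _ _ e => e) (fun _ _ _ _ e => e) <;>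
      · intro w w' _ _ e
        simp only [Prod.mk.injEq] at e ⊢
        tauto)
    (by
      refine (CH_eq_zero hr0 ?_).le
      intro w w' a b e
      have e1 := Prod.ext_iff.mp e
      have e2 : Y w = Y w' := e1.2
      have e3 : b0 (w 0) = b0 (w' 0) := hdb0 w w' (hrq w a).1 (hrq w' b).1 (Prod.ext_iff.mp e2).1
      have e4 := hdRr w w' a b e3
      have e5 : ts w = ts w' := (Prod.ext_iff.mp (Prod.ext_iff.mp e2).2).2
      have e6 : dd w = dd w' := by
        simp only [hdd]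
        rw [e3, e5]
      exact Prod.ext e1.1 (Prod.ext e4 e6))
  have h9 : CH r (fun w => Z (w 0)) (fun w => (QQ w, (Wd (w 0), Y w))) ≤
      CH r (fun w => (Z (w 0), (Wd (w 0), R (w 0)))) (fun w => (QQ w, (Wd (w 0), Y w))) :=
    CH_mono_left hr0 fun w w' _ _ e => by
      simp only [Prod.mk.injEq] at e ⊢
      tauto
  unfold bD
  linarith [hend]

end Pool.TQ
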