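import Pool.Agent.H16.TT.Dns
import Pool.Agent.H21.POT.Dat

/-!
# Entropies given an event

`MI_ev`, `DF_ev`: informations and deficits given an event which is determined by the condition.
`mg`: the image of a law with bounded density.
-/

set_option autoImplicit false

namespace Pool.TQ

open Finset Real
open Pool.Agent.H49.Ent Pool.Agent.H32.Dense Pool.STK Pool.POT Pool.FAD
open Pool.K2S (Pe)

variable {Ω S T U V : Type} [Fintype Ω] {p : Ω → ℝ}

theorem cond_le {G : Ω → Prop} (hp : ∀ ω, 0 ≤ p ω) (ω : Ω) :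
    cond p G True ω ≤ 1 / Pe p G * p ω := by
  unfold Pool.Agent.H49.Ent.cond
  have h0 : 0 ≤ Pe p G := law_nonneg hp _ _
  split_ifs
  · rw [div_mul_eq_mul_div, one_mul]
  · exact mul_nonneg (by positivity) (hp ω)

theorem cond_law {G : Ω → Prop} (hp : ∀ ω, 0 ≤ p ω) (h : 0 < Pe p G) :
    IsLaw (cond p G True) :=
  ⟨cond_nonneg hp _ _, sum_cond _ _ h.ne'⟩

/-- A sum over the values of an event. -/
theorem sum_ev {G : Ω → Prop} {f : Prop → ℝ} (h0 : ∀ P, law p G P = 0 → f P = 0) :
    open Classical in ∑ P ∈ univ.image G, f P = f True + f False := by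
  classical
  have h1 : ∑ P ∈ univ.image G, f P = ∑ P ∈ ({True, False} : Finset Prop), f P := by
    refine Finset.sum_subset ?_ ?_
    · intro P _
      by_cases h : P
      · simp [h]
      · simp [h]
    · intro P _ h2
      exact h0 P (law_eq_zero_of_notMem _ _ h2)
  rw [h1, Finset.sum_pair (by simp)]

theorem law_ev (hp : IsLaw p) (G : Ω → Prop) : law p G True + law p G False = 1 := by
  classical
  have h1 := sum_ev (p := p) (G := G) (f := fun P => law p G P) fun _ h => h
  have h2 := sum_law_one hp.sum_one G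
  linarith

theorem CH_ev (hp : ∀ ω, 0 ≤ p ω) {G : Ω → Prop} (X : Ω → S) (W : Ω → T) (hG : Det p W G) :
    CH p X W = law p G True * CH (cond p G True) X W + law p G False * CH (cond p G False) X W := by
  classical
  have h1 := CH_split hp X W G
  have h2 : CH p X (fun ω => (W ω, G ω)) = CH p X W := by
    refine CH_congr hp (fun _ _ _ _ h => (Prod.ext_iff.mp h).1)
      (fun _ _ _ _ h => (Prod.ext_iff.mp h).1) ?_ ?_
    · intro ω ω' _ _ h
      exact (Prod.ext_iff.mp h).1
    · intro ω ω' a b h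
      exact Prod.ext h (hG ω ω' a b h)
  rw [← h2, h1, sum_ev (p := p)]
  intro P h
  rw [h, zero_mul]

theorem Ex_ev (hp : ∀ ω, 0 ≤ p ω) (G : Ω → Prop) (f : Ω → ℝ) :
    Ex p f = law p G True * Ex (cond p G True) f + law p G False * Ex (cond p G False) f := by
  classical
  rw [Ex_split hp f G, sum_ev (p := p)]
  intro P h
  rw [h, zero_mul]

/-- **Informations given an event of the second variable or of the condition.** -/
theorem MI_ev (hp : IsLaw p) {G : Ω → Prop} (X : Ω → S) (Y : Ω → T) (W : Ω → U)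
    (hG : Det p (fun ω => (Y ω, W ω)) G) (h0 : 0 < Pe p G) :
    MI (cond p G True) X Y W ≤ MI p X Y W / Pe p G := by
  classical
  rw [le_div_iff₀ h0]
  have h1 := MI_cond_right hp.nonneg (X := X) (Y := Y) (B := G) (Z := W) hG
  have h2 : MI p X Y (fun ω => (G ω, W ω)) = law p G True *
      MI (cond p G True) X Y (fun ω => (G ω, W ω)) +
      law p G False * MI (cond p G False) X Y (fun ω => (G ω, W ω)) := by
    unfold MI
    rw [CH_ev hp.nonneg X (fun ω => (G ω, W ω)) (G := G)
      (fun _ _ _ _ h => (Prod.ext_iff.mp h).1),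
      CH_ev hp.nonneg X (fun ω => (Y ω, (G ω, W ω))) (G := G)
      (fun _ _ _ _ h => (Prod.ext_iff.mp (Prod.ext_iff.mp h).2).1)]
    ring
  have h3 : MI (cond p G True) X Y (fun ω => (G ω, W ω)) = MI (cond p G True) X Y W := by
    have hc := cond_nonneg hp.nonneg G True
    have hT : ∀ ω, 0 < cond p G True ω → G ω = True := fun ω h =>
      ((cond_pos_iff hp.nonneg G True ω).1 h).2
    refine MI_congr hc ?_ ?_ ?_ ?_ ?_ ?_
    · intro ω ω' _ _ h
      simp only [Prod.mk.injEq] at h ⊢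
      tauto
    · intro ω ω' a b h
      have e1 := hT ω a
      have e2 := hT ω' b
      simp only [Prod.mk.injEq] at h ⊢
      rw [e1, e2]
      tauto
    · intro ω ω' _ _ h
      simp only [Prod.mk.injEq] at h ⊢
      tauto
    · intro ω ω' a b h
      have e1 := hT ω a
      have e2 := hT ω' b
      simp only [Prod.mk.injEq] at h ⊢
      rw [e1, e2]
      tauto
    · intro ω ω' _ _ h
      simp only [Prod.mk.injEq] at h
      exact h.2
    · intro ω ω' a b h
      have e1 := hT ω a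
      have e2 := hT ω' b
      simp only [Prod.mk.injEq]
      rw [e1, e2]
      exact ⟨rfl, h⟩
  have h4 : 0 ≤ law p G False * MI (cond p G False) X Y (fun ω => (G ω, W ω)) :=
    mul_nonneg (law_nonneg hp.nonneg _ _) (MI_nonneg (cond_nonneg hp.nonneg _ _) _ _ _)
  rw [h3] at h2
  have h5 : Pe p G = law p G True := rfl
  rw [h5]
  linarith

/-- **Deficits given an event of the condition.** -/
theorem DF_ev {n : ℕ} (hp : IsLaw p) {G : Ω → Prop} {T V : Ω → Matrix (Fin n) (Fin n) ℝ}
    (x : Ω → Fin n → ℝ) (Z : Ω → S) (hG : Det p Z G) (hdT : Det p Z T) (hdV : Det p Z V)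
    (hT : ∀ ω, (T ω).det ≠ 0) (hV : ∀ ω, (V ω).det ≠ 0) {c : ℝ} (hc : 0 ≤ c)
    (h : ∀ ω, Inc c (T ω) (V ω)) (h0 : 0 < Pe p G) :
    DF (cond p G True) T V x Z ≤ (DF p T V x Z + |Cc n c|) / Pe p G := by
  classical
  rw [le_div_iff₀ h0]
  have h1 : DF p T V x Z = law p G True * DF (cond p G True) T V x Z +
      law p G False * DF (cond p G False) T V x Z := by
    unfold DF
    rw [CH_ev hp.nonneg (fun ω => cl (T ω) (x ω)) (fun ω => (cl (V ω) (x ω), Z ω)) (G := G)
      (fun ω ω' a b e => hG ω ω' a b (Prod.ext_iff.mp e).2),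
      Ex_ev hp.nonneg G (fun ω => lv (V ω) - lv (T ω))]
    ring
  have h2 : -|Cc n c| ≤ law p G False * DF (cond p G False) T V x Z := by
    rcases (law_nonneg hp.nonneg G False).eq_or_lt with h3 | h3
    · rw [← h3, zero_mul]
      linarith [abs_nonneg (Cc n c)]
    · have hl : IsLaw (cond p G False) := ⟨cond_nonneg hp.nonneg _ _, sum_cond _ _ h3.ne'⟩
      have hpos : ∀ ω, 0 < cond p G False ω → 0 < p ω := fun ω hω =>
        ((cond_pos_iff hp.nonneg G False ω).1 hω).1
      have h4 := DF_ge hl.nonneg hl.sum_one x Z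
        (fun ω ω' a b e => hdT ω ω' (hpos ω a) (hpos ω' b) e)
        (fun ω ω' a b e => hdV ω ω' (hpos ω a) (hpos ω' b) e) hT hV hc h
      have h5 : law p G False ≤ 1 := by
        have := law_ev hp G
        have := law_nonneg hp.nonneg G True
        linarith
      have h6 : Cc n c ≤ |Cc n c| := le_abs_self _
      have h7 := abs_nonneg (Cc n c)
      nlinarith
  have h5 : Pe p G = law p G True := rfl
  rw [h5]
  linarith

/-! ### Images -/

open Classical in
/-- The image of `s` under `f`. -/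
noncomputable def mg {Ω' : Type} (s : Ω → ℝ) (f : Ω → Ω') (ω : Ω') : ℝ :=
  ∑ w, if f w = ω then s w else 0

variable {Ω' : Type} {p' : Ω' → ℝ} {s : Ω → ℝ} {f : Ω → Ω'}

theorem im_mg (s : Ω → ℝ) (f : Ω → Ω') : Im s (mg s f) f := fun _ => rfl

theorem mg_law [Fintype Ω'] (hs : IsLaw s) (f : Ω → Ω') : IsLaw (mg s f) := by
  classical
  refine ⟨fun ω => Finset.sum_nonneg fun w _ => ?_, ?_⟩
  · split_ifs
    · exact hs.nonneg w
    · exact le_rfl
  · unfold mg
    rw [Finset.sum_comm, ← hs.sum_one]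
    refine Finset.sum_congr rfl fun w _ => ?_
    rw [Finset.sum_ite_eq]
    simp

theorem mg_le (h : Im p p' f) {F : ℝ} (hs : ∀ w, s w ≤ F * p w) (ω : Ω') :
    mg s f ω ≤ F * p' ω := by
  classical
  rw [← h ω, Finset.mul_sum]
  unfold mg
  refine Finset.sum_le_sum fun w _ => ?_
  split_ifs
  · exact hs w
  · simp

variable [Fintype Ω']

/-- Lower bounds of conditional entropies for laws with bounded density, upstairs. -/
theorem up_low (h : Im p p' f) (hp' : IsLaw p') (hs : IsLaw s) {F m₀ b : ℝ} (hF0 : 0 < F)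
    (hF : ∀ w, s w ≤ F * p w) (hm : 0 ≤ m₀) (hb : 0 ≤ b) (X : Ω' → S) (W : Ω' → T)
    (hX : ∀ B : Ω' → Prop, m₀ ≤ Pe p' B → 0 < Pe p' B → b ≤ CH (cond p' B True) X W) :
    (1 - F * m₀) * b ≤ CH s (fun w => X (f w)) (fun w => W (f w)) := by
  rw [(im_mg s f).CH X W]
  exact dens_low hp' (mg_law hs f) hF0 (mg_le h hF) hm hb X W hX

theorem up_up (h : Im p p' f) (hp' : IsLaw p') (hs : IsLaw s) {F m₀ b G : ℝ} (hF0 : 0 < F)
    (hF : ∀ w, s w ≤ F * p w) (hm : 0 ≤ m₀) (hb : 0 ≤ b) (hG : 0 ≤ G) (X : Ω' → S) (W : Ω' → T)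
    (hX : ∀ B : Ω' → Prop, m₀ ≤ Pe p' B → 0 < Pe p' B → CH (cond p' B True) X W ≤ b)
    (hall : ∀ q : Ω' → ℝ, IsLaw q → (∀ ω, 0 < q ω → 0 < p' ω) → CH q X W ≤ G) {K : ℕ}
    (hK : 0 < K) :
    CH s (fun w => X (f w)) (fun w => W (f w)) ≤
      b + (F / K + F * m₀) * G + Real.log (K + 1) := by
  rw [(im_mg s f).CH X W]
  exact dens_up hp' (mg_law hs f) hF0 (mg_le h hF) hm hb hG X W hX hall hK

end Pool.TQ
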