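import Pool.Agent.H16.TT.Fib
import Pool.Agent.H64.POT.Ok
import Pool.Agent.H21.POT.Lin

/-!
# TQ: the consumer for tied coordinates, the informations

Samples of one line: the other times are almost independent of all functions of the first sample
given the context.
-/

set_option autoImplicit false

namespace Pool.TQ

open Finset Real Matrix
open Pool.Agent.H49.Ent Pool.Agent.H32.Dense Pool.STK Pool.POT Pool.FAD Pool.SLO
open Pool.K2S (Pe)

section gen

variable {Ω S T U V S' : Type} [Fintype Ω] {p : Ω → ℝ}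

/-- A function of the variable and of the condition, in the condition. -/
theorem CH_fib (hp : ∀ ω, 0 ≤ p ω) (n : Ω → S) (P : Ω → S') (W : Ω → T) (Y : Ω → U)
    (hP : Det p (fun ω => (n ω, Y ω)) P) :
    CH p n (fun ω => (P ω, Y ω)) ≤ CH p n (fun ω => (P ω, (W ω, Y ω))) + MI p n W Y := by
  have h1 := CH_chain hp n P Y
  have h2 := CH_chain hp n P (fun ω => (W ω, Y ω))
  have h3 : CH p (fun ω => (n ω, P ω)) Y = CH p n Y := by
    refine CH_congr hp ?_ ?_ (fun _ _ _ _ h => h) (fun _ _ _ _ h => h)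
    · intro ω ω' _ _ h
      simp only [Prod.mk.injEq] at h
      exact h.1.1
    · intro ω ω' a b h
      have := hP ω ω' a b h
      simp only [Prod.mk.injEq] at h ⊢
      exact ⟨h.1, this⟩
  have h4 : CH p (fun ω => (n ω, P ω)) (fun ω => (W ω, Y ω)) = CH p n (fun ω => (W ω, Y ω)) := by
    refine CH_congr hp ?_ ?_ (fun _ _ _ _ h => h) (fun _ _ _ _ h => h)
    · intro ω ω' _ _ h
      simp only [Prod.mk.injEq] at h
      exact h.1.1
    · intro ω ω' a b h
      simp only [Prod.mk.injEq] at h ⊢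
      exact ⟨h.1, hP ω ω' a b (Prod.ext h.1 h.2.2)⟩
  have h5 : CH p P (fun ω => (W ω, Y ω)) ≤ CH p P Y :=
    CH_mono_cond hp fun ω ω' _ _ h => (Prod.ext_iff.mp h).2
  unfold MI
  linarith

/-- Exchange of the variable and of the function, up to bounded ambiguities. -/
theorem CH_exch {d : ℕ} (hp : IsLaw p) (n : Ω → Fin d → ℤ) (Z : Ω → Fin d → ℤ) (P : Ω → Fin d → ℤ)
    (Q : Ω → Fin d → ℤ) (Y : Ω → U) {a b : ℝ}
    (h1 : ∀ ω ω', 0 < p ω → 0 < p ω' → Z ω = Z ω' → Y ω = Y ω' →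
      ∀ i, |((n ω i - n ω' i : ℤ) : ℝ)| ≤ a)
    (h2 : ∀ ω ω', 0 < p ω → 0 < p ω' → P ω = P ω' → Y ω = Y ω' →
      ∀ i, |((Q ω i - Q ω' i : ℤ) : ℝ)| ≤ b) :
    CH p n (fun ω => (P ω, Y ω)) ≤ CH p Z (fun ω => (Q ω, Y ω)) +
      (d * Real.log (2 * a + 1) + d * Real.log (2 * b + 1)) := by
  have hp0 := hp.nonneg
  have e1 := CH_le_add hp0 n Z (fun ω => (P ω, Y ω))
  have e2 := CH_le_vec hp0 hp.sum_one n (fun ω => (Z ω, (P ω, Y ω))) (fun _ => a) (by
    intro ω ω' x y e i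
    simp only [Prod.mk.injEq] at e
    exact h1 ω ω' x y e.1 e.2.2 i)
  have e3 := CH_le_add hp0 Z Q (fun ω => (P ω, Y ω))
  have e4 := CH_le_vec hp0 hp.sum_one Q (fun ω => (P ω, Y ω)) (fun _ => b) (by
    intro ω ω' x y e i
    simp only [Prod.mk.injEq] at e
    exact h2 ω ω' x y e.1 e.2 i)
  have e5 : CH p Z (fun ω => (Q ω, (P ω, Y ω))) ≤ CH p Z (fun ω => (Q ω, Y ω)) := by
    refine CH_mono_cond hp0 fun ω ω' _ _ e => ?_
    simp only [Prod.mk.injEq] at e ⊢
    exact ⟨e.1, e.2.2⟩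
  rw [Ex_const hp.sum_one] at e2 e4
  linarith

end gen

section tuples

variable {Ω Λ β τ S : Type} [Fintype Ω] {p : Ω → ℝ} {L : Ω → Λ} {b : Ω → β} {th : Ω → τ} {d : ℝ}

/-- **The other times**. -/
theorem tup_mi3 (hp : ∀ ω, 0 ≤ p ω) (hb : Det p L b) (h : MI p th L b ≤ d) (X : Ω → S) :
    MI (tup p L 3) (fun w => X (w 0)) (fun w => (th (w 1), (th (w 2), th (w 3))))
      (fun w => b (w 0)) ≤ 3 * d := by
  have h0 : ∀ w, 0 ≤ tup p L 3 w := fun w => tup_nonneg hp L _ w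
  have hbb : Det (tup p L 3) (fun w => L (w 0)) (fun w => b (w 0)) :=
    (im_tup hp L 3 0).det h0 hb
  have e0 : MI (tup p L 3) (fun w => X (w 0)) (fun w => (th (w 1), (th (w 2), th (w 3))))
      (fun w => b (w 0)) ≤ MI (tup p L 3) (fun w => (L (w 0), X (w 0)))
        (fun w (j : Fin 3) => th (w j.succ)) (fun w => b (w 0)) := by
    refine (MI_le_left h0 (X := fun w => (L (w 0), X (w 0))) ?_).trans (MI_le_right h0 ?_)
    · intro w w' _ _ e
      simp only [Prod.mk.injEq] at e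
      exact e.1.2
    · intro w w' _ _ e
      simp only [Prod.mk.injEq] at e ⊢
      exact ⟨congrFun e.1 0, congrFun e.1 1, congrFun e.1 2⟩
  refine e0.trans ?_
  rw [MI_chain_left h0]
  have e1 := tup_cost hp th hb h 3
  have e2 := tup_ci0 hp L 2 X (fun (w : Fin 3 → Ω) (j : Fin 3) => th (w j))
  have e3 : MI (tup p L 3) (fun w => X (w 0)) (fun w (j : Fin 3) => th (w j.succ))
      (fun w => (L (w 0), b (w 0))) = 0 := by
    rw [← e2]
    refine MI_congr h0 ?_ ?_ ?_ ?_ ?_ ?_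
    · intro w w' _ _ e
      simp only [Prod.mk.injEq] at e ⊢
      exact ⟨e.1, e.2.1⟩
    · intro w w' x x' e
      simp only [Prod.mk.injEq] at e ⊢
      exact ⟨e.1, e.2, hbb w w' x x' e.2⟩
    · intro w w' _ _ e
      simp only [Prod.mk.injEq] at e ⊢
      exact ⟨e.1, e.2.1⟩
    · intro w w' x x' e
      simp only [Prod.mk.injEq] at e ⊢
      exact ⟨e.1, e.2, hbb w w' x x' e.2⟩
    · intro w w' _ _ e
      exact (Prod.ext_iff.1 e).1
    · intro w w' x x' e
      exact Prod.ext e (hbb w w' x x' e)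
  rw [e3]
  push_cast at e1
  linarith

end tuples

end Pool.TQ
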