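import Pool.Agent.H12.TT.End
import Pool.Agent.H21.POT.Inf

/-!
# Laws with bounded density

A law `r ≤ F p` is a mixture of the laws `p` given the events `{k τ p ≤ r}`, up to a rest of mass
`τ`. So a lower bound of a conditional entropy on all large events of `p` passes to `r`
(`dens_low`), and an upper bound as well (`dens_up`).
-/

set_option autoImplicit false

namespace Pool.TQ

open Finset Real
open Pool.Agent.H49.Ent Pool.Agent.H32.Dense Pool.STK Pool.POT
open Pool.K2S (Pe)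

variable {Ω α β : Type} {p r : Ω → ℝ}

/-- The event of a layer. -/
def Ly (p r : Ω → ℝ) (τ : ℝ) (k : ℕ) (ω : Ω) : Prop := 0 < p ω ∧ (k : ℝ) * (τ * p ω) ≤ r ω

open Classical in
/-- The mass of a layer. -/
noncomputable def lm (p r : Ω → ℝ) (τ : ℝ) (k : ℕ) (ω : Ω) : ℝ :=
  if Ly p r τ k ω then τ * p ω else 0

/-- The layers. -/
noncomputable def lay (p r : Ω → ℝ) (τ : ℝ) (K : ℕ) (w : Ω × Fin (K + 1)) : ℝ :=
  if (w.2 : ℕ) = 0 then r w.1 - ∑ k ∈ Finset.Icc 1 K, lm p r τ k w.1 else lm p r τ w.2 w.1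

theorem lm_nonneg (hp : ∀ ω, 0 ≤ p ω) {τ : ℝ} (hτ : 0 ≤ τ) (k : ℕ) (ω : Ω) :
    0 ≤ lm p r τ k ω := by
  unfold lm
  split_ifs
  · exact mul_nonneg hτ (hp ω)
  · exact le_rfl

/-- The layers fill `r` up to `τ p`. -/
theorem sum_lm (hp : ∀ ω, 0 ≤ p ω) (hr : ∀ ω, 0 ≤ r ω) {τ : ℝ} {K : ℕ} (hτ : 0 < τ)
    (hF : ∀ ω, r ω ≤ (K * τ) * p ω) (ω : Ω) :
    ∑ k ∈ Finset.Icc 1 K, lm p r τ k ω ≤ r ω ∧
      r ω - τ * p ω ≤ ∑ k ∈ Finset.Icc 1 K, lm p r τ k ω := by
  classical
  rcases (hp ω).eq_or_lt with h0 | h0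
  · have h1 : r ω = 0 := le_antisymm (by simpa [← h0] using hF ω) (hr ω)
    have h2 : ∀ k ∈ Finset.Icc 1 K, lm p r τ k ω = 0 := by
      intro k _
      unfold lm
      rw [if_neg]
      rintro ⟨h, -⟩
      rw [← h0] at h
      exact lt_irrefl _ h
    rw [Finset.sum_eq_zero h2, h1, ← h0]
    simp
  · have hu : 0 < τ * p ω := mul_pos hτ h0
    set m := ⌊r ω / (τ * p ω)⌋₊ with hm
    have hm1 : (m : ℝ) * (τ * p ω) ≤ r ω := by
      rw [← le_div_iff₀ hu]
      exact Nat.floor_le (div_nonneg (hr ω) hu.le)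
    have hm2 : r ω < ((m : ℝ) + 1) * (τ * p ω) := by
      rw [← div_lt_iff₀ hu]
      exact Nat.lt_floor_add_one _
    have hmK : m ≤ K := by
      refine Nat.floor_le_of_le ?_
      rw [div_le_iff₀ hu]
      linarith [hF ω]
    have h3 : ∀ k ∈ Finset.Icc 1 K, lm p r τ k ω =
        if k ∈ Finset.Icc 1 m then τ * p ω else 0 := by
      intro k hk
      unfold lm
      congr 1
      rw [eq_iff_iff]
      constructor
      · rintro ⟨-, h⟩
        refine Finset.mem_Icc.2 ⟨(Finset.mem_Icc.1 hk).1, ?_⟩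
        refine Nat.le_floor ?_
        rwa [le_div_iff₀ hu]
      · intro h
        refine ⟨h0, le_trans ?_ hm1⟩
        exact mul_le_mul_of_nonneg_right (by exact_mod_cast (Finset.mem_Icc.1 h).2) hu.le
    rw [Finset.sum_congr rfl h3, ← Finset.sum_filter]
    have h4 : (Finset.Icc 1 K).filter (fun k => k ∈ Finset.Icc 1 m) = Finset.Icc 1 m := by
      ext k
      simp only [Finset.mem_filter, Finset.mem_Icc]
      omega
    rw [h4, Finset.sum_const, Nat.card_Icc, nsmul_eq_mul]
    push_cast [Nat.add_sub_cancel]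
    constructor
    · exact hm1
    · linarith

theorem lay_nonneg (hp : ∀ ω, 0 ≤ p ω) (hr : ∀ ω, 0 ≤ r ω) {τ : ℝ} {K : ℕ} (hτ : 0 < τ)
    (hF : ∀ ω, r ω ≤ (K * τ) * p ω) (w : Ω × Fin (K + 1)) : 0 ≤ lay p r τ K w := by
  unfold lay
  split_ifs
  · linarith [(sum_lm hp hr hτ hF w.1).1]
  · exact lm_nonneg hp hτ.le _ _

theorem sum_fin_lay {K : ℕ} (τ : ℝ) (ω : Ω) :
    ∑ k : Fin (K + 1), lay p r τ K (ω, k) = r ω := by
  rw [Fin.sum_univ_succ]
  unfold lay
  simp only [Fin.val_zero, if_true, Fin.val_succ, Nat.add_eq_zero_iff, one_ne_zero, and_false,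
    if_false]
  have : ∑ k : Fin K, lm p r τ ((k : ℕ) + 1) ω = ∑ k ∈ Finset.Icc 1 K, lm p r τ k ω := by
    rw [Finset.sum_fin_eq_sum_range]
    have e : Finset.Icc 1 K = (Finset.range K).image (fun k => k + 1) := by
      ext k
      simp only [Finset.mem_Icc, Finset.mem_image, Finset.mem_range]
      constructor
      · rintro ⟨h1, h2⟩
        exact ⟨k - 1, by omega, by omega⟩
      · rintro ⟨a, h1, rfl⟩
        omega
    rw [e, Finset.sum_image (fun a _ b _ h => by simpa using h)]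
    refine Finset.sum_congr rfl fun k hk => ?_
    rw [dif_pos (Finset.mem_range.1 hk)]
  rw [this]
  ring

variable [Fintype Ω]

theorem im_lay {K : ℕ} (τ : ℝ) : Im (lay p r τ K) r Prod.fst := by
  classical
  intro ω
  rw [Fintype.sum_prod_type, Finset.sum_eq_single ω]
  · simp only [if_true]
    exact sum_fin_lay τ ω
  · intro b _ hb
    simp [hb]
  · intro h
    exact absurd (Finset.mem_univ _) h

/-- The law of the layer. -/
theorem law_lay {K : ℕ} (τ : ℝ) (k : Fin (K + 1)) :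
    law (lay p r τ K) Prod.snd k = ∑ ω, lay p r τ K (ω, k) := by
  classical
  unfold law
  rw [Fintype.sum_prod_type]
  refine Finset.sum_congr rfl fun ω _ => ?_
  rw [Finset.sum_eq_single k]
  · simp
  · intro b _ hb
    simp [hb]
  · intro h
    exact absurd (Finset.mem_univ _) h

theorem law_lay_pos {K : ℕ} {τ : ℝ} {k : Fin (K + 1)} (hk : (k : ℕ) ≠ 0) :
    law (lay p r τ K) Prod.snd k = τ * Pe p (Ly p r τ k) := by
  classical
  rw [law_lay]
  unfold Pe law
  rw [Finset.mul_sum]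
  refine Finset.sum_congr rfl fun ω _ => ?_
  unfold lay lm
  rw [if_neg hk]
  by_cases h : Ly p r τ k ω
  · rw [if_pos h, if_pos (by simpa using h)]
  · rw [if_neg h, if_neg (by simpa using h), mul_zero]

theorem law_lay_zero {K : ℕ} {τ : ℝ} (hp : IsLaw p) (hr : ∀ ω, 0 ≤ r ω) (hτ : 0 < τ)
    (hF : ∀ ω, r ω ≤ (K * τ) * p ω) : law (lay p r τ K) Prod.snd 0 ≤ τ := by
  classical
  rw [law_lay]
  calc ∑ ω, lay p r τ K (ω, 0) ≤ ∑ ω, τ * p ω := by
        refine Finset.sum_le_sum fun ω _ => ?_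
        have := (sum_lm hp.nonneg hr hτ hF ω).2
        simp only [lay, Fin.val_zero, if_true]
        linarith
    _ = τ := by rw [← Finset.mul_sum, hp.sum_one, mul_one]

/-- A layer is the law given its event. -/
theorem im_cond_lay {K : ℕ} {τ : ℝ} (hτ : 0 < τ) {k : Fin (K + 1)} (hk : (k : ℕ) ≠ 0) :
    Im (cond (lay p r τ K) Prod.snd k) (cond p (Ly p r τ k) True) Prod.fst := by
  classical
  intro ω
  rw [Fintype.sum_prod_type, Finset.sum_eq_single ω]
  · simp only [if_true]
    rw [Finset.sum_eq_single k]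
    · unfold Pool.Agent.H49.Ent.cond
      simp only [if_true]
      rw [law_lay_pos hk]
      unfold lay lm
      simp only
      rw [if_neg hk]
      by_cases h : Ly p r τ k ω
      · rw [if_pos h, if_pos (by simpa using h)]
        rw [mul_div_mul_left _ _ hτ.ne']
      · rw [if_neg h, if_neg (by simpa using h), zero_div]
    · intro b _ hb
      unfold Pool.Agent.H49.Ent.cond
      rw [if_neg hb]
    · intro h
      exact absurd (Finset.mem_univ _) h
  · intro b _ hb
    simp [hb]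
  · intro h
    exact absurd (Finset.mem_univ _) h

theorem lay_law (hp : IsLaw p) (hr : IsLaw r) {τ : ℝ} {K : ℕ} (hτ : 0 < τ)
    (hF : ∀ ω, r ω ≤ (K * τ) * p ω) : IsLaw (lay p r τ K) :=
  (im_lay τ).isLaw (lay_nonneg hp.nonneg hr.nonneg hτ hF) hr

theorem CH_lay (hp : IsLaw p) (hr : IsLaw r) {τ : ℝ} {K : ℕ} (hτ : 0 < τ)
    (hF : ∀ ω, r ω ≤ (K * τ) * p ω) (X : Ω → α) (W : Ω → β) :
    CH (lay p r τ K) (fun w => X w.1) (fun w => (W w.1, w.2)) =
      ∑ k : Fin (K + 1), law (lay p r τ K) Prod.snd k *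
        CH (cond (lay p r τ K) Prod.snd k) (fun w => X w.1) (fun w => W w.1) := by
  classical
  rw [CH_split (lay_nonneg hp.nonneg hr.nonneg hτ hF) (fun w => X w.1) (fun w => W w.1) Prod.snd]
  refine Finset.sum_subset (Finset.subset_univ _) fun k _ hk => ?_
  rw [law_eq_zero_of_notMem _ _ hk, zero_mul]

theorem sum_law_lay (hp : IsLaw p) (hr : IsLaw r) {τ : ℝ} {K : ℕ} (hτ : 0 < τ)
    (hF : ∀ ω, r ω ≤ (K * τ) * p ω) :
    ∑ k : Fin (K + 1), law (lay p r τ K) Prod.snd k = 1 := by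
  classical
  rw [← sum_law_one (lay_law hp hr hτ hF).sum_one (Prod.snd : Ω × Fin (K + 1) → Fin (K + 1))]
  refine (Finset.sum_subset (Finset.subset_univ _) fun k _ hk => ?_).symm
  rw [law_eq_zero_of_notMem _ _ hk]

/-- The mass of the small layers. -/
theorem bad_lay (hp : IsLaw p) (hr : IsLaw r) {τ m₀ : ℝ} {K : ℕ} (hτ : 0 < τ) (hm : 0 ≤ m₀)
    (hF : ∀ ω, r ω ≤ (K * τ) * p ω) : open Classical in
    ∑ k ∈ univ.filter (fun k : Fin (K + 1) => ¬ ((k : ℕ) ≠ 0 ∧ m₀ ≤ Pe p (Ly p r τ k) ∧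
      0 < Pe p (Ly p r τ k))), law (lay p r τ K) Prod.snd k ≤ τ + K * τ * m₀ := by
  classical
  have hn := lay_nonneg hp.nonneg hr.nonneg hτ hF
  rw [Finset.sum_filter, Fin.sum_univ_succ]
  have h1 : (if ¬ (((0 : Fin (K + 1)) : ℕ) ≠ 0 ∧ m₀ ≤ Pe p (Ly p r τ (0 : Fin (K + 1))) ∧
      0 < Pe p (Ly p r τ (0 : Fin (K + 1)))) then law (lay p r τ K) Prod.snd 0 else 0) ≤ τ := by
    rw [if_pos (by simp)]
    exact law_lay_zero hp hr.nonneg hτ hF
  have h2 : ∀ k : Fin K, (if ¬ (((k.succ : Fin (K + 1)) : ℕ) ≠ 0 ∧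
      m₀ ≤ Pe p (Ly p r τ (k.succ : Fin (K + 1))) ∧
      0 < Pe p (Ly p r τ (k.succ : Fin (K + 1)))) then law (lay p r τ K) Prod.snd k.succ
      else 0) ≤ τ * m₀ := by
    intro k
    split_ifs with h
    · positivity
    · rw [law_lay_pos (by simp)]
      refine mul_le_mul_of_nonneg_left ?_ hτ.le
      by_contra hc
      push Not at hc
      exact h ⟨by simp, hc.le, lt_of_le_of_lt hm hc⟩
  have h3 := Finset.sum_le_sum (s := Finset.univ) fun k _ => h2 k
  rw [Finset.sum_const, Finset.card_univ, Fintype.card_fin, nsmul_eq_mul] at h3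
  linarith

/-- **Lower bounds pass to bounded densities.** -/
theorem dens_low (hp : IsLaw p) (hr : IsLaw r) {F m₀ b : ℝ} (hF0 : 0 < F)
    (hF : ∀ ω, r ω ≤ F * p ω) (hm : 0 ≤ m₀) (hb : 0 ≤ b) (X : Ω → α) (W : Ω → β)
    (h : ∀ B : Ω → Prop, m₀ ≤ Pe p B → 0 < Pe p B → b ≤ CH (cond p B True) X W) :
    (1 - F * m₀) * b ≤ CH r X W := by
  classical
  have key : ∀ K : ℕ, 0 < K → (1 - F / K - F * m₀) * b ≤ CH r X W := by
    intro K hK
    have hK' : (0 : ℝ) < K := by exact_mod_cast hK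
    set τ := F / K with hτd
    have hτ : 0 < τ := div_pos hF0 hK'
    have hKτ : K * τ = F := by rw [hτd]; field_simp
    have hF' : ∀ ω, r ω ≤ (K * τ) * p ω := fun ω => by rw [hKτ]; exact hF ω
    have hn := lay_nonneg hp.nonneg hr.nonneg hτ hF'
    have e1 := (im_lay (p := p) (r := r) (K := K) τ).CH X W
    have e2 := CH_mono_cond hn (X := fun w => X w.1) (W' := fun w => (W w.1, w.2))
      (W := fun w => W w.1) fun _ _ _ _ h => (Prod.ext_iff.mp h).1
    have e3 := CH_lay hp hr hτ hF' X W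
    have e4 := bad_lay hp hr hτ hm hF'
    have e5 := sum_law_lay hp hr hτ hF'
    set P : Fin (K + 1) → Prop := fun k => (k : ℕ) ≠ 0 ∧ m₀ ≤ Pe p (Ly p r τ k) ∧
      0 < Pe p (Ly p r τ k) with hP
    have e6 : ∑ k ∈ univ.filter P, law (lay p r τ K) Prod.snd k * b ≤
        ∑ k : Fin (K + 1), law (lay p r τ K) Prod.snd k *
        CH (cond (lay p r τ K) Prod.snd k) (fun w => X w.1) (fun w => W w.1) := by
      rw [← Finset.sum_filter_add_sum_filter_not univ P]
      have g1 : ∑ k ∈ univ.filter P, law (lay p r τ K) Prod.snd k * b ≤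
          ∑ k ∈ univ.filter P, law (lay p r τ K) Prod.snd k *
            CH (cond (lay p r τ K) Prod.snd k) (fun w => X w.1) (fun w => W w.1) := by
        refine Finset.sum_le_sum fun k hk => ?_
        obtain ⟨k1, k2, k3⟩ := (Finset.mem_filter.1 hk).2
        refine mul_le_mul_of_nonneg_left ?_ (law_nonneg hn _ _)
        rw [(im_cond_lay hτ k1).CH X W]
        exact h _ k2 k3
      have g2 : 0 ≤ ∑ k ∈ univ.filter (fun k => ¬ P k), law (lay p r τ K) Prod.snd k *
            CH (cond (lay p r τ K) Prod.snd k) (fun w => X w.1) (fun w => W w.1) :=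
        Finset.sum_nonneg fun k _ => mul_nonneg (law_nonneg hn _ _)
          (CH_nonneg (cond_nonneg hn _ _) _ _)
      linarith
    rw [← Finset.sum_mul] at e6
    have e7 := Finset.sum_filter_add_sum_filter_not univ P
      (fun k => law (lay p r τ K) Prod.snd k)
    rw [hKτ] at e4
    have e8 : (1 - τ - F * m₀) * b ≤ (∑ k ∈ univ.filter P, law (lay p r τ K) Prod.snd k) * b := by
      refine mul_le_mul_of_nonneg_right ?_ hb
      linarith
    linarith
  refine le_of_forall_pos_le_add fun ε hε => ?_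
  obtain ⟨K, hK⟩ := exists_nat_gt (F * b / ε)
  have hK0 : 0 < K := by
    have : 0 ≤ F * b / ε := by positivity
    have h1 : (0 : ℝ) < K := lt_of_le_of_lt this hK
    exact_mod_cast h1
  have hK' : (0 : ℝ) < K := by exact_mod_cast hK0
  have h2 : F / K * b ≤ ε := by
    rw [div_mul_eq_mul_div, div_le_iff₀ hK']
    rw [div_lt_iff₀ hε] at hK
    linarith
  have h3 := key K hK0
  nlinarith [h3, h2]

/-- **Upper bounds pass to bounded densities.** -/
theorem dens_up (hp : IsLaw p) (hr : IsLaw r) {F m₀ b G : ℝ} (hF0 : 0 < F)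
    (hF : ∀ ω, r ω ≤ F * p ω) (hm : 0 ≤ m₀) (hb : 0 ≤ b) (hG : 0 ≤ G) (X : Ω → α) (W : Ω → β)
    (h : ∀ B : Ω → Prop, m₀ ≤ Pe p B → 0 < Pe p B → CH (cond p B True) X W ≤ b)
    (hall : ∀ q : Ω → ℝ, IsLaw q → (∀ ω, 0 < q ω → 0 < p ω) → CH q X W ≤ G) {K : ℕ}
    (hK : 0 < K) :
    CH r X W ≤ b + (F / K + F * m₀) * G + Real.log (K + 1) := by
  classical
  have hK' : (0 : ℝ) < K := by exact_mod_cast hK
  set τ := F / K with hτd
  have hτ : 0 < τ := div_pos hF0 hK'
  have hKτ : K * τ = F := by rw [hτd]; field_simp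
  have hF' : ∀ ω, r ω ≤ (K * τ) * p ω := fun ω => by rw [hKτ]; exact hF ω
  have hn := lay_nonneg hp.nonneg hr.nonneg hτ hF'
  have hl := lay_law hp hr hτ hF'
  have e1 := (im_lay (p := p) (r := r) (K := K) τ).CH X W
  have e2 := CH_le_add hn (fun w => X w.1) (fun w => w.2) (fun w => W w.1)
  have e2' : CH (lay p r τ K) (fun w => X w.1) (fun w => (w.2, W w.1)) =
      CH (lay p r τ K) (fun w => X w.1) (fun w => (W w.1, w.2)) := by
    refine CH_congr hn (fun _ _ _ _ h => (Prod.ext_iff.mp h).1)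
      (fun _ _ _ _ h => (Prod.ext_iff.mp h).1) ?_ ?_ <;>
    · intro w w' _ _ h
      simp only [Prod.mk.injEq] at h ⊢
      exact ⟨h.2, h.1⟩
  have e3 := CH_lay hp hr hτ hF' X W
  have e4 := bad_lay hp hr hτ hm hF'
  have e5 := sum_law_lay hp hr hτ hF'
  have e9 : CH (lay p r τ K) (fun w => w.2) (fun w => W w.1) ≤ Real.log (K + 1) := by
    have := CH_le_card hl.nonneg hl.sum_one (fun w : Ω × Fin (K + 1) => w.2) (fun w => W w.1)
      (fun _ => Finset.univ) (fun _ _ => Finset.mem_univ _)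
    rw [Ex_const hl.sum_one, Finset.card_univ, Fintype.card_fin] at this
    push_cast at this
    exact this
  set P : Fin (K + 1) → Prop := fun k => (k : ℕ) ≠ 0 ∧ m₀ ≤ Pe p (Ly p r τ k) ∧
    0 < Pe p (Ly p r τ k) with hP
  have e6 : ∑ k : Fin (K + 1), law (lay p r τ K) Prod.snd k *
      CH (cond (lay p r τ K) Prod.snd k) (fun w => X w.1) (fun w => W w.1) ≤
      ∑ k ∈ univ.filter P, law (lay p r τ K) Prod.snd k * b +
      ∑ k ∈ univ.filter (fun k => ¬ P k), law (lay p r τ K) Prod.snd k * G := by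
    rw [← Finset.sum_filter_add_sum_filter_not univ P]
    refine add_le_add ?_ ?_
    · refine Finset.sum_le_sum fun k hk => ?_
      obtain ⟨k1, k2, k3⟩ := (Finset.mem_filter.1 hk).2
      refine mul_le_mul_of_nonneg_left ?_ (law_nonneg hn _ _)
      rw [(im_cond_lay hτ k1).CH X W]
      exact h _ k2 k3
    · refine Finset.sum_le_sum fun k hk => ?_
      rcases (law_nonneg hn (Prod.snd : Ω × Fin (K + 1) → Fin (K + 1)) k).eq_or_lt with h0 | h0
      · rw [← h0, zero_mul, zero_mul]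
      · refine mul_le_mul_of_nonneg_left ?_ h0.le
        -- the image of the layer
        have hq : IsLaw (cond (lay p r τ K) Prod.snd k) :=
          ⟨cond_nonneg hn _ _, sum_cond _ _ h0.ne'⟩
        set q' : Ω → ℝ := fun ω => ∑ w, if w.1 = ω then cond (lay p r τ K) Prod.snd k w else 0
          with hq'
        have him : Im (cond (lay p r τ K) Prod.snd k) q' Prod.fst := fun ω => rfl
        have hq'l : IsLaw q' := by
          refine ⟨fun ω => Finset.sum_nonneg fun w _ => ?_, ?_⟩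
          · split_ifs
            · exact hq.nonneg w
            · exact le_rfl
          · rw [hq', Finset.sum_comm]
            rw [← hq.sum_one]
            refine Finset.sum_congr rfl fun w _ => ?_
            rw [Finset.sum_ite_eq]
            simp
        rw [him.CH X W]
        refine hall q' hq'l fun ω hω => ?_
        by_contra hc
        have hp0 : p ω = 0 := le_antisymm (not_lt.1 hc) (hp.nonneg ω)
        have hr0 : r ω = 0 := le_antisymm (by simpa [hp0] using hF ω) (hr.nonneg ω)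
        have : q' ω = 0 := by
          rw [hq']
          refine Finset.sum_eq_zero fun w _ => ?_
          split_ifs with hw
          · by_contra hne
            have hpos : 0 < cond (lay p r τ K) Prod.snd k w :=
              lt_of_le_of_ne (hq.nonneg w) (Ne.symm hne)
            have h5 := ((cond_pos_iff hn Prod.snd k w).1 hpos).1
            have h6 := (im_lay (p := p) (r := r) (K := K) τ).pos hn h5
            rw [hw, hr0] at h6
            exact lt_irrefl _ h6
          · rfl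
        rw [this] at hω
        exact lt_irrefl _ hω
  rw [← Finset.sum_mul, ← Finset.sum_mul] at e6
  have e7 := Finset.sum_filter_add_sum_filter_not univ P
    (fun k => law (lay p r τ K) Prod.snd k)
  rw [hKτ] at e4
  have e8 : (∑ k ∈ univ.filter P, law (lay p r τ K) Prod.snd k) * b ≤ 1 * b := by
    refine mul_le_mul_of_nonneg_right ?_ hb
    have : 0 ≤ ∑ k ∈ univ.filter (fun k => ¬ P k), law (lay p r τ K) Prod.snd k :=
      Finset.sum_nonneg fun k _ => law_nonneg hn _ _
    linarith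
  have e10 : (∑ k ∈ univ.filter (fun k => ¬ P k), law (lay p r τ K) Prod.snd k) * G ≤
      (τ + F * m₀) * G := mul_le_mul_of_nonneg_right e4 hG
  linarith

end Pool.TQ
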