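import Pool.Agent.H16.TT.Ev

/-!
# The fibre of a full block over the quotient by a long direction

`pr i0 κ n` is the integer vector `n` modulo the direction `κ` (`κ i0 = 1`). `fib`: if `n` is full in
the body `A` given `Z`, and the column `b` of `A` has the pivot `i0`, then `n` has almost
`log |A i0 b| + X log 2` given `Z` and `pr i0 κ n`, where `κ` is the direction of the column.
-/

set_option autoImplicit false

namespace Pool.TQ

open Finset Real Matrix
open Pool.Agent.H49.Ent Pool.Agent.H32.Dense Pool.STK Pool.POT Pool.FAD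
open Pool.K2S (Pe)

variable {c : ℕ}

/-- An integer vector modulo the direction `κ` with the pivot `i0`. -/
noncomputable def pr (i0 : Fin c) (κ : Fin c → ℝ) (n : Fin c → ℤ) (i : Fin c) : ℤ :=
  if i = i0 then 0 else ⌊(n i : ℝ) - κ i * n i0⌋

/-- The body with the long column `a` and the small axes. -/
noncomputable def Vm (X : ℕ) (i0 : Fin c) (a : Fin c → ℝ) : Matrix (Fin c) (Fin c) ℝ :=
  (Tx c X).updateCol i0 a

theorem Vm_det (X : ℕ) (i0 : Fin c) (a : Fin c → ℝ) :
    (Vm X i0 a).det = a i0 * (((2 : ℝ) ^ X)⁻¹) ^ (c - 1) := by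
  have hX : (((2 : ℝ) ^ X)⁻¹) ≠ 0 := by positivity
  have h1 := Matrix.mulVec_cramer (Tx c X) a
  have h2 := congrFun h1 i0
  have h3 : (Tx c X *ᵥ (Tx c X).cramer a) i0 = ((2 : ℝ) ^ X)⁻¹ * (Vm X i0 a).det := by
    unfold Tx
    rw [Matrix.mulVec_diagonal, Matrix.cramer_apply]
    rfl
  rw [h3] at h2
  have h4 : (Tx c X).det = (((2 : ℝ) ^ X)⁻¹) ^ c := by
    unfold Tx
    rw [Matrix.det_diagonal, Finset.prod_const, Finset.card_univ, Fintype.card_fin]
  rw [Pi.smul_apply, smul_eq_mul, h4] at h2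
  have h5 : (((2 : ℝ) ^ X)⁻¹) ^ c = ((2 : ℝ) ^ X)⁻¹ * (((2 : ℝ) ^ X)⁻¹) ^ (c - 1) := by
    rw [← pow_succ']
    congr 1
    have := i0.pos
    omega
  rw [h5, mul_assoc] at h2
  have := mul_left_cancel₀ hX h2
  rw [this]
  ring

theorem Vm_lv (X : ℕ) (i0 : Fin c) (a : Fin c → ℝ) (ha : a i0 ≠ 0) :
    lv (Vm X i0 a) - lv (Tx c X) = Real.log |a i0| + X * Real.log 2 := by
  rw [lv_Tx]
  unfold lv
  have h2 : (0 : ℝ) < ((2 : ℝ) ^ X)⁻¹ := by positivity
  rw [Vm_det, abs_mul, Real.log_mul (abs_ne_zero.2 ha) (abs_ne_zero.2 (by positivity)), abs_pow,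
    abs_of_pos h2, Real.log_pow, Real.log_inv, Real.log_pow]
  have h1 : ((c - 1 : ℕ) : ℝ) = c - 1 := by
    have := i0.pos
    rw [Nat.cast_sub (by omega)]
    simp
  rw [h1]
  ring

/-- The coordinates in the body. -/
theorem Vm_mul (X : ℕ) (i0 : Fin c) (a : Fin c → ℝ) (ha : a i0 ≠ 0) (x : Fin c → ℝ) :
    (Vm X i0 a)⁻¹ *ᵥ x = fun i => if i = i0 then x i0 / a i0 else
      2 ^ X * (x i - a i / a i0 * x i0) := by
  have hX : ((2 : ℝ) ^ X) ≠ 0 := by positivity
  have hd : (Vm X i0 a).det ≠ 0 := by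
    rw [Vm_det]
    exact mul_ne_zero ha (by positivity)
  set y : Fin c → ℝ := fun i => if i = i0 then x i0 / a i0 else
      2 ^ X * (x i - a i / a i0 * x i0) with hy
  have h1 : Vm X i0 a *ᵥ y = x := by
    funext i
    unfold Vm Tx
    simp only [Matrix.mulVec, dotProduct, Matrix.updateCol_apply, Matrix.diagonal_apply]
    have h2 : ∀ j : Fin c, (if j = i0 then a i else if i = j then ((2 : ℝ) ^ X)⁻¹ else 0) * y j =
        (if j = i0 then a i * (x i0 / a i0) else 0) +
        (if j = i then (if i = i0 then 0 else x i - a i / a i0 * x i0) else 0) := by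
      intro j
      rw [hy]
      by_cases hj : j = i0
      · subst hj
        simp only [if_true]
        by_cases hi : j = i
        · subst hi
          simp
        · simp [hi]
      · simp only [if_neg hj, zero_add]
        by_cases hi : i = j
        · subst hi
          simp only [if_true, if_neg hj]
          field_simp
        · simp [hi, Ne.symm hi]
    rw [Finset.sum_congr rfl fun j _ => h2 j, Finset.sum_add_distrib, Finset.sum_ite_eq',
      Finset.sum_ite_eq']
    simp only [Finset.mem_univ, if_true]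
    by_cases hi : i = i0
    · subst hi
      simp only [if_true, add_zero]
      field_simp
    · rw [if_neg hi]
      field_simp
      ring
  rw [← h1, Matrix.mulVec_mulVec, Matrix.nonsing_inv_mul _ (isUnit_iff_ne_zero.2 hd),
    Matrix.one_mulVec]

theorem Vm_cl (X : ℕ) (i0 : Fin c) (a : Fin c → ℝ) (ha : a i0 ≠ 0) (n : Fin c → ℤ) {i : Fin c}
    (hi : i ≠ i0) : cl (Vm X i0 a) (xv X n) i = pr i0 (fun i => a i / a i0) n i := by
  unfold cl pr
  rw [Vm_mul X i0 a ha, if_neg hi]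
  simp only [if_neg hi]
  congr 1
  unfold xv
  have hX : ((2 : ℝ) ^ X) ≠ 0 := by positivity
  field_simp

theorem Vm_inc {X : ℕ} {A : Matrix (Fin c) (Fin c) ℝ} (hA : A.det ≠ 0)
    (hinv : ∀ i j, |A⁻¹ i j| ≤ 2 ^ X) (i0 b : Fin c) : Inc c (Vm X i0 fun i => A i b) A := by
  have hX : (0 : ℝ) < 2 ^ X := by positivity
  intro i
  refine row_one (fun i j => ?_) i
  rw [Matrix.mul_apply]
  by_cases hj : j = i0
  · have h1 : ∑ k, A⁻¹ i k * Vm X i0 (fun i => A i b) k j = (A⁻¹ * A) i b := by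
      rw [Matrix.mul_apply]
      refine Finset.sum_congr rfl fun k _ => ?_
      unfold Vm
      rw [Matrix.updateCol_apply, if_pos hj]
    rw [h1, Matrix.nonsing_inv_mul _ (isUnit_iff_ne_zero.2 hA), Matrix.one_apply]
    split_ifs
    · rw [abs_one]
    · rw [abs_zero]
      exact zero_le_one
  · have h1 : ∑ k, A⁻¹ i k * Vm X i0 (fun i => A i b) k j = A⁻¹ i j * ((2 : ℝ) ^ X)⁻¹ := by
      unfold Vm Tx
      simp only [Matrix.updateCol_apply, if_neg hj, Matrix.diagonal_apply]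
      rw [Finset.sum_eq_single j]
      · simp
      · intro k _ hk
        simp [hk]
      · intro h
        exact absurd (Finset.mem_univ _) h
    rw [h1, abs_mul, abs_of_pos (inv_pos.2 hX), ← div_eq_mul_inv, div_le_one hX]
    exact hinv i j

variable {Ω ζ : Type} [Fintype Ω] {p : Ω → ℝ}

/-- **The fibre.** -/
theorem fib (hp : IsLaw p) (X : ℕ) {A : Ω → Matrix (Fin c) (Fin c) ℝ} (n : Ω → Fin c → ℤ)
    (Z : Ω → ζ) (hdA : Det p Z A) (hA : ∀ ω, (A ω).det ≠ 0) (hinv : ∀ ω i j, |(A ω)⁻¹ i j| ≤ 2 ^ X)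
    (i0 : Fin c) (b : Ω → Fin c) (hdb : Det p Z b) (hne : ∀ ω, A ω i0 (b ω) ≠ 0) :
    Ex p (fun ω => Real.log |A ω i0 (b ω)|) + X * Real.log 2 -
      DF p (fun _ => Tx c X) A (fun ω => xv X (n ω)) Z - Cc c c ≤
      CH p n (fun ω => (pr i0 (fun i => A ω i (b ω) / A ω i0 (b ω)) (n ω), Z ω)) := by
  have hp0 := hp.nonneg
  set V : Ω → Matrix (Fin c) (Fin c) ℝ := fun ω => Vm X i0 fun i => A ω i (b ω) with hV
  have hVd : ∀ ω, (V ω).det ≠ 0 := by
    intro ω
    rw [hV]
    simp only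
    rw [Vm_det]
    exact mul_ne_zero (hne ω) (by positivity)
  have hdV : Det p Z V := by
    intro ω ω' a a' e
    have e1 := hdA ω ω' a a' e
    have e2 := hdb ω ω' a a' e
    rw [hV]
    simp only [e1, e2]
  have h1 := DF_mono hp0 hp.sum_one (T := fun _ => Tx c X) (W := V) (S := A)
    (fun ω => xv X (n ω)) Z hdV hdA hVd hA (a := (c : ℝ)) (by positivity)
    (fun ω => Vm_inc (hA ω) (hinv ω) i0 (b ω))
  rw [DF_xv p X V] at h1
  have h2 : Ex p (fun ω => lv (V ω) - lv (Tx c X)) =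
      Ex p (fun ω => Real.log |A ω i0 (b ω)|) + X * Real.log 2 := by
    have : (fun ω => lv (V ω) - lv (Tx c X)) =
        fun ω => Real.log |A ω i0 (b ω)| + X * Real.log 2 := by
      funext ω
      exact Vm_lv X i0 (fun i => A ω i (b ω)) (hne ω)
    rw [this, Ex_add, Ex_const hp.sum_one]
  rw [h2] at h1
  have h3 : CH p n (fun ω => (cl (V ω) (xv X (n ω)), Z ω)) ≤
      CH p n (fun ω => (pr i0 (fun i => A ω i (b ω) / A ω i0 (b ω)) (n ω), Z ω)) := by
    refine CH_mono_cond hp0 fun ω ω' a a' e => ?_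
    simp only [Prod.mk.injEq] at e ⊢
    refine ⟨?_, e.2⟩
    funext i
    by_cases hi : i = i0
    · unfold pr
      rw [if_pos hi, if_pos hi]
    · have k1 := Vm_cl X i0 (fun i => A ω i (b ω)) (hne ω) (n ω) hi
      have k2 := Vm_cl X i0 (fun i => A ω' i (b ω')) (hne ω') (n ω') hi
      rw [← k1, ← k2]
      exact congrFun e.1 i
  linarith

end Pool.TQ
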