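import Pool.Agent.H16.TT.TqB
import Pool.Agent.H64.POT.Body

/-!
# TQ: the consumer for tied coordinates

`tq`: the three-point vectors of the own slopes of the tied coordinates are at most
`2 ^ (-(x₀ X))`, with large probability, if the heights of the tied coordinates are not full (deficit
`h`), and full modulo every direction which is a function of the record (deficit `x < h - x₀`) on all
events of mass at least `exp (-(ε X))`.
-/

set_option autoImplicit false

namespace Pool.TQ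

open Finset Real Matrix
open Pool.Agent.H49.Ent Pool.Agent.H32.Dense Pool.STK Pool.POT Pool.FAD Pool.SLO Pool.QT64
open Pool.K2S (Pe)

variable {c k : ℕ}

theorem ex_lin {a b : ℝ} (ha : 0 < a) : ∃ X0 : ℕ, ∀ X : ℕ, X0 ≤ X → b ≤ a * X := by
  obtain ⟨X0, h⟩ := exists_nat_ge (b / a)
  refine ⟨X0, fun X hX => ?_⟩
  have h1 : b / a ≤ X := h.trans (by exact_mod_cast hX)
  rw [div_le_iff₀ ha] at h1
  linarith

/-- A linear function times a decreasing exponential. -/
theorem ex_exp {a A B g : ℝ} (ha : 0 < a) (hB : 0 ≤ B) (hg : 0 < g) :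
    ∃ X0 : ℕ, ∀ X : ℕ, X0 ≤ X → Real.exp (-(a * X)) * (A * X + B) ≤ g := by
  obtain ⟨X0, h⟩ := ex_lin (a := g * a ^ 2 / 2) (b := A + B) (by positivity)
  refine ⟨max X0 1, fun X hX => ?_⟩
  have h1 := h X ((le_max_left _ _).trans hX)
  have hX1 : (1 : ℝ) ≤ X := by exact_mod_cast (le_max_right _ _).trans hX
  have h2 : A * X + B ≤ (A + B) * X := by nlinarith
  have h3 : (A + B) * X ≤ g * a ^ 2 / 2 * X * X := mul_le_mul_of_nonneg_right h1 (by linarith)
  have h4 := Real.quadratic_le_exp_of_nonneg (x := a * X) (by positivity)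
  have h5 : g * a ^ 2 / 2 * X * X ≤ g * Real.exp (a * X) := by
    have : g * a ^ 2 / 2 * X * X = g * ((a * X) ^ 2 / 2) := by ring
    rw [this]
    refine mul_le_mul_of_nonneg_left ?_ hg.le
    have : 0 ≤ a * X := by positivity
    linarith
  rw [Real.exp_neg, inv_mul_le_iff₀ (Real.exp_pos _)]
  linarith

/-- The mass of one of finitely many events. -/
theorem Pe_pig {Ω : Type} [Fintype Ω] {q : Ω → ℝ} (hc : 0 < c) (B : Ω → Prop)
    (f : Ω → Fin c) {e : ℝ} (h : e < Pe q B) : ∃ i, e / c ≤ Pe q (fun w => B w ∧ f w = i) := by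
  classical
  by_contra hcon
  push Not at hcon
  have hcR : (0 : ℝ) < c := by exact_mod_cast hc
  have h1 : Pe q B = ∑ i, Pe q (fun w => B w ∧ f w = i) := by
    simp only [Pool.K2S.Pe_eq]
    rw [Finset.sum_comm]
    refine Finset.sum_congr rfl fun w _ => ?_
    by_cases hb : B w
    · simp [hb]
    · simp [hb]
  have h2 : ∑ i, Pe q (fun w => B w ∧ f w = i) ≤ ∑ _i : Fin c, e / c :=
    Finset.sum_le_sum fun i _ => (hcon i).le
  rw [Finset.sum_const, Finset.card_univ, Fintype.card_fin, nsmul_eq_mul,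
    mul_div_cancel₀ _ hcR.ne'] at h2
  linarith

/-- A long three-point vector gives a long column. -/
theorem long {A : Matrix (Fin c) (Fin c) ℝ} (hA : A.det ≠ 0) {v : Fin c → ℝ} {K1 a : ℝ}
    (hc : 0 < c) (hK : 0 < K1) (h : ∀ b, |(A⁻¹ *ᵥ v) b| ≤ K1) {i i0 : Fin c} (ha : a < |v i|)
    (hi : (pv hc A).1 = i0) : a / (c * K1) ≤ |A i0 (pb hc i0 A)| := by
  have hcR : (0 : ℝ) < c := by exact_mod_cast hc
  have h1 : v = A *ᵥ (A⁻¹ *ᵥ v) := by
    rw [Matrix.mulVec_mulVec, Matrix.mul_nonsing_inv _ (isUnit_iff_ne_zero.2 hA),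
      Matrix.one_mulVec]
  have h2 : |v i| ≤ c * (|A i0 (pb hc i0 A)| * K1) := by
    rw [h1]
    unfold Matrix.mulVec dotProduct
    refine (Finset.abs_sum_le_sum_abs _ _).trans ?_
    have : ∀ b ∈ (Finset.univ : Finset (Fin c)), |A i b * (fun i => ∑ j, A⁻¹ i j * v j) b| ≤
        |A i0 (pb hc i0 A)| * K1 := by
      intro b _
      rw [abs_mul]
      refine mul_le_mul ?_ (h b) (abs_nonneg _) (abs_nonneg _)
      have h3 := pv_max hc A i b
      have e : pb hc i0 A = (pv hc A).2 := by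
        unfold pb
        rw [if_pos hi]
      rw [e, ← hi]
      exact h3
    refine (Finset.sum_le_sum this).trans (le_of_eq ?_)
    rw [Finset.sum_const, Finset.card_univ, Fintype.card_fin, nsmul_eq_mul]
  rw [div_le_iff₀ (by positivity)]
  calc a ≤ |v i| := ha.le
    _ ≤ c * (|A i0 (pb hc i0 A)| * K1) := h2
    _ = |A i0 (pb hc i0 A)| * (c * K1) := by ring

/-- The elementary estimate of the products. -/
theorem prod_est {κ δ e M t N : ℝ} (hκ : 0 ≤ κ) (hδ : 0 ≤ δ) (he : 0 ≤ e)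
    (he1 : e ≤ 1) (hM : M = max 0 t) (hN : M ≤ N) :
    t - (κ + δ + e) * N ≤ (1 - κ) * (Real.exp (-δ) * ((1 - e) * M)) := by
  have hM0 : 0 ≤ M := hM ▸ le_max_left _ _
  have hMt : t ≤ M := hM ▸ le_max_right _ _
  have h1 : 1 - δ ≤ Real.exp (-δ) := by
    have := Real.add_one_le_exp (-δ)
    linarith
  have h2 : (1 - κ - δ - e) ≤ (1 - κ) * (Real.exp (-δ) * (1 - e)) := by
    have h3 : (1 - δ) * (1 - e) ≤ Real.exp (-δ) * (1 - e) :=
      mul_le_mul_of_nonneg_right h1 (by linarith)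
    have h4 : 1 - δ - e ≤ (1 - δ) * (1 - e) := by nlinarith [mul_nonneg hδ he]
    have h5 : 0 ≤ Real.exp (-δ) * (1 - e) := mul_nonneg (Real.exp_pos _).le (by linarith)
    have h6 : Real.exp (-δ) * (1 - e) ≤ 1 := by
      have : Real.exp (-δ) ≤ 1 := Real.exp_le_one_iff.2 (by linarith)
      nlinarith [Real.exp_pos (-δ)]
    have h7 : κ * (Real.exp (-δ) * (1 - e)) ≤ κ := by nlinarith
    nlinarith
  have h8 : (κ + δ + e) * M ≤ (κ + δ + e) * N := mul_le_mul_of_nonneg_left hN (by positivity)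
  have h9 : (1 - κ - δ - e) * M ≤ (1 - κ) * (Real.exp (-δ) * (1 - e)) * M :=
    mul_le_mul_of_nonneg_right h2 hM0
  nlinarith

/-- The logarithm of `A 2 ^ X + B`. -/
theorem log_pow_le {A : ℝ} (hA : 1 ≤ A) (X : ℕ) {y : ℝ} (hy0 : 0 < y) (hy : y ≤ A * 2 ^ X) :
    Real.log y ≤ X * Real.log 2 + Real.log A := by
  have h1 := Real.log_le_log hy0 hy
  rw [Real.log_mul (by linarith) (by positivity), Real.log_pow] at h1
  linarith

/-- **TQ.** -/
def TqStmt (c k : ℕ) : Prop :=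
  ∀ h x x₀ ε ε₀ : ℝ, 0 < h → h ≤ 1 → 0 ≤ x → 0 < x₀ → x + x₀ < h → 0 < ε → 0 < ε₀ →
    ∃ io ϖ : ℝ, 0 < io ∧ 0 < ϖ ∧ ∀ C : ℝ, 1 ≤ C → ∃ X0 : ℕ,
    ∀ (H : QH c k) (ρ β : Type) (R : H.Ω → ρ) (Wd : H.Ω → β) (Z : H.Ω → Fin c → ℤ)
      (F : β → H.Tt → H.B → Fin c → ℝ) (X : ℕ), X0 ≤ X →
      TqOk H R Wd Z F X C (io * X) h x ε ϖ →
      Pe (tup H.p H.line 3) (fun w => ∃ u i, (2 : ℝ) ^ (-(x₀ * X)) <
        |d3 H.tau H.E u (H.th (w 1)) (H.th (w 2)) (H.th (w 3)) i|) ≤ ε₀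

theorem okn_mono {H : QH c k} {X : ℕ} {C d d' : ℝ} (ok : H.OkN X C d) (h : d ≤ d') :
    H.OkN X C d' :=
  { ok with
    h0 := ok.h0.trans h
    h2 := ok.h2.trans h
    y_f := by linarith [ok.y_f]
    t_f := by linarith [ok.t_f] }

theorem tq (c k : ℕ) : TqStmt c k := by
  classical
  intro h x x₀ ε ε₀ hh hh1 hx hx₀ hxx hε hε₀
  rcases Nat.eq_zero_or_pos c with hc0 | hc
  · subst hc0
    refine ⟨1, 1, one_pos, one_pos, fun C _ => ⟨0, fun H ρ β R Wd Z F X _ hH => ?_⟩⟩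
    have h1 : Pe (tup H.p H.line 3) (fun w => ∃ u i, (2 : ℝ) ^ (-(x₀ * X)) <
        |d3 H.tau H.E u (H.th (w 1)) (H.th (w 2)) (H.th (w 3)) i|) = 0 := by
      rw [Pool.K2S.Pe_eq]
      refine Finset.sum_eq_zero fun w _ => ?_
      rw [if_neg]
      rintro ⟨u, i, -⟩
      exact i.elim0
    rw [h1]
    exact hε₀.le
  have hcR : (0 : ℝ) < c := by exact_mod_cast hc
  have hc1 : (1 : ℝ) ≤ c := by exact_mod_cast hc
  have hL2 : 0 < Real.log 2 := Real.log_pos (by norm_num)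
  have hL1 : Real.log 2 ≤ 1 := by linarith [Real.log_two_lt_d9]
  obtain ⟨g, hg⟩ : ∃ g : ℝ, g = (h - x - x₀) * Real.log 2 := ⟨_, rfl⟩
  have hg0 : 0 < g := by
    rw [hg]
    exact mul_pos (by linarith) hL2
  obtain ⟨m, hm⟩ : ∃ m : ℝ, m = ε₀ / c := ⟨_, rfl⟩
  have hm0 : 0 < m := by rw [hm]; positivity
  obtain ⟨γ, hγ⟩ : ∃ γ : ℝ, γ = g / (64 * c) := ⟨_, rfl⟩
  have hγ0 : 0 < γ := by rw [hγ]; positivity
  obtain ⟨σ, hσ⟩ : ∃ σ : ℝ, σ = ε / 4 := ⟨_, rfl⟩
  have hσ0 : 0 < σ := by rw [hσ]; positivity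
  obtain ⟨θ, hθ⟩ : ∃ θ : ℝ, θ = 2 * c / (σ * γ) := ⟨_, rfl⟩
  have hθ0 : 0 < θ := by rw [hθ]; positivity
  obtain ⟨η, hη⟩ : ∃ η : ℝ, η = m * g / 32 := ⟨_, rfl⟩
  have hη0 : 0 < η := by rw [hη]; positivity
  obtain ⟨io₁, hio₁, hbody⟩ := body_stmt c k η hη0
  obtain ⟨K, hK⟩ := exists_nat_ge (128 * c / (m * g) + 1)
  have hK0 : 0 < K := by
    have h1 : 0 < 128 * c / (m * g) + 1 := by positivity
    have h2 : (0 : ℝ) < K := h1.trans_le hK
    exact_mod_cast h2
  have hKR : (0 : ℝ) < K := by exact_mod_cast hK0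
  obtain ⟨ϖ, hϖ⟩ : ∃ ϖ : ℝ, ϖ = m * g / (128 * c) := ⟨_, rfl⟩
  have hϖ0 : 0 < ϖ := by rw [hϖ]; positivity
  obtain ⟨io, hio⟩ : ∃ io : ℝ, io = min (min io₁ (m * g / 128))
    (min (m * σ * γ / 4) (g * m / (128 * θ))) := ⟨_, rfl⟩
  have hio0 : 0 < io := by
    rw [hio]
    refine lt_min (lt_min hio₁ (by positivity)) (lt_min (by positivity) (by positivity))
  have i1 : io ≤ io₁ := hio ▸ (min_le_left _ _).trans (min_le_left _ _)
  have i2 : io ≤ m * g / 128 := hio ▸ (min_le_left _ _).trans (min_le_right _ _)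
  have i3 : io ≤ m * σ * γ / 4 := hio ▸ (min_le_right _ _).trans (min_le_left _ _)
  have i4 : io ≤ g * m / (128 * θ) := hio ▸ (min_le_right _ _).trans (min_le_right _ _)
  refine ⟨io, ϖ, hio0, hϖ0, fun C hC => ?_⟩
  obtain ⟨K1', X1, hb⟩ := hbody C hC
  obtain ⟨K1, hK1⟩ : ∃ K1 : ℝ, K1 = max K1' 1 := ⟨_, rfl⟩
  have hK10 : 0 < K1 := by rw [hK1]; exact lt_of_lt_of_le one_pos (le_max_right _ _)
  have hC0 : 0 < C := by linarith
  -- large X
  obtain ⟨X2, l2⟩ := ex_lin (a := g / 32) (b := |Cc c (c + 1)| / m) (by positivity)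
  obtain ⟨X3, l3⟩ := ex_lin (a := g / 32) (b := |Cc c c|) (by positivity)
  obtain ⟨X4, l4⟩ := ex_lin (a := g / 32) (b := |bC c C|) (by positivity)
  obtain ⟨X5, l5⟩ := ex_lin (a := (1 : ℝ)) (b := Real.log (13 * C)) one_pos
  obtain ⟨X6, l6⟩ := ex_lin (a := g / 32) (b := Real.log (K + 1)) (by positivity)
  obtain ⟨X7, l7⟩ := ex_lin (a := σ * γ) (b := 2) (by positivity)
  obtain ⟨X8, l8⟩ := ex_exp (a := σ) (A := 2 * σ / γ) (B := 2) (g := γ) hσ0
    (by norm_num) hγ0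
  obtain ⟨X9, l9⟩ := ex_exp (a := ε / 2) (A := 0) (B := Real.exp γ / m) (g := min γ 1)
    (by positivity) (by positivity) (lt_min hγ0 one_pos)
  obtain ⟨X10, l10⟩ := ex_lin (a := g / 32) (b := |Real.log (c * K1)|) (by positivity)
  refine ⟨max (max (max (max X1 X2) (max X3 X4)) (max (max X5 X6) (max X7 X8)))
    (max (max X9 X10) 1), fun H ρ β R Wd Z F X hX hH => ?_⟩
  have a0 := (max_le_iff.1 hX).1
  have a1 := (max_le_iff.1 hX).2
  have b0 := (max_le_iff.1 a0).1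
  have b1 := (max_le_iff.1 a0).2
  have c0 := (max_le_iff.1 b0).1
  have c1 := (max_le_iff.1 b0).2
  have c2 := (max_le_iff.1 b1).1
  have c3 := (max_le_iff.1 b1).2
  replace l2 := l2 X (max_le_iff.1 c0).2
  replace l3 := l3 X (max_le_iff.1 c1).1
  replace l4 := l4 X (max_le_iff.1 c1).2
  replace l5 := l5 X (max_le_iff.1 c2).1
  replace l6 := l6 X (max_le_iff.1 c2).2
  replace l7 := l7 X (max_le_iff.1 c3).1
  replace l8 := l8 X (max_le_iff.1 c3).2
  replace l9 := l9 X (max_le_iff.1 (max_le_iff.1 a1).1).1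
  replace l10 := l10 X (max_le_iff.1 (max_le_iff.1 a1).1).2
  have hX1 : (1 : ℝ) ≤ X := by exact_mod_cast (max_le_iff.1 a1).2
  have hX0 : (0 : ℝ) < X := by linarith
  obtain ⟨A0, hA1, hA2⟩ := hb H X (max_le_iff.1 c0).1
    (okn_mono hH.ok (mul_le_mul_of_nonneg_right i1 hX0.le))
  by_contra hcon
  push Not at hcon
  set q := tup H.p H.line 3 with hq
  have hqL : IsLaw q := tup_isLaw hH.ok.law H.line 3
  obtain ⟨i0, hi0⟩ := Pe_pig hc _ (fun w => (pv hc (A0 (H.th (w 1)) (H.th (w 2)) (H.th (w 3)))).1)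
    hcon
  obtain ⟨a₀, ha₀⟩ : ∃ a₀ : ℝ, a₀ = (2 : ℝ) ^ (-(x₀ * X)) / (c * K1) := ⟨_, rfl⟩
  have ha₀0 : 0 < a₀ := by rw [ha₀]; positivity
  have key := tq_ineq hc hH hC hh1 hϖ0 (A0 := A0) (fun t0 t1 t2 => (hA1 t0 t1 t2).1)
    (fun t0 t1 t2 => (hA1 t0 t1 t2).2.2.1) hA2 (i0 := i0)
    (G := fun t => (∃ u i, (2 : ℝ) ^ (-(x₀ * X)) < |d3 H.tau H.E u t.1 t.2.1 t.2.2 i|) ∧
      (pv hc (A0 t.1 t.2.1 t.2.2)).1 = i0) ha₀0 (by
        rintro t ⟨⟨u, i, hu⟩, ht⟩
        refine ⟨ht, ?_⟩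
        rw [ha₀]
        exact long (hA1 _ _ _).1 hc hK10 (fun b => ((hA1 t.1 t.2.1 t.2.2).2.2.2 u b).trans
          (hK1 ▸ le_max_left _ _)) hu ht) hm0 (hm ▸ hi0) (s := σ * X) (δ := γ) (θ := θ)
    (η₁ := Real.exp (-(σ * X))) hK0 (by positivity) hγ0 hθ0 (Real.exp_pos _) (by
      have e1 : Real.exp (-(σ * X + γ)) * Real.exp (-(σ * X)) =
          Real.exp (-(ε * X)) * (Real.exp (ε / 2 * X) / Real.exp γ) := by
        rw [← Real.exp_sub, ← Real.exp_add, ← Real.exp_add, hσ]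
        congr 1
        ring
      rw [e1]
      have e2 : Real.exp γ / m ≤ Real.exp (ε / 2 * X) := by
        have := l9.trans (min_le_right _ _)
        rw [zero_mul, zero_add, Real.exp_neg, inv_mul_le_iff₀ (Real.exp_pos _), mul_one] at this
        exact this
      rw [div_le_iff₀ hm0] at e2
      have e3 : 1 ≤ m * (Real.exp (ε / 2 * X) / Real.exp γ) := by
        rw [← mul_div_assoc, le_div_iff₀ (Real.exp_pos _)]
        linarith
      calc Real.exp (-(ε * X)) = Real.exp (-(ε * X)) * 1 := (mul_one _).symm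
        _ ≤ Real.exp (-(ε * X)) * (m * (Real.exp (ε / 2 * X) / Real.exp γ)) :=
            mul_le_mul_of_nonneg_left e3 (Real.exp_pos _).le
        _ = _ := by ring)
  -- the terms
  obtain ⟨μ, hμ⟩ : ∃ μ : ℝ, μ = Real.exp (-(σ * X + γ)) * Real.exp (-(σ * X)) := ⟨_, rfl⟩
  obtain ⟨e, he⟩ : ∃ e : ℝ, e = Real.exp (-(ε * X)) / (m * μ) := ⟨_, rfl⟩
  have he' : e = Real.exp (-(ε / 2 * X)) * (0 * X + Real.exp γ / m) := by
    rw [he, hμ, ← Real.exp_add, zero_mul, zero_add, div_eq_iff (by positivity)]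
    have : Real.exp (-(ε / 2 * X)) * (Real.exp γ / m) *
        (m * Real.exp (-(σ * X + γ) + -(σ * X))) =
        Real.exp (-(ε / 2 * X)) * Real.exp γ * Real.exp (-(σ * X + γ) + -(σ * X)) := by
      field_simp
    rw [this, ← Real.exp_add, ← Real.exp_add, hσ]
    congr 1
    ring
  rw [← he'] at l9
  have he0 : 0 ≤ e := by rw [he, hμ]; positivity
  have heγ : e ≤ γ := l9.trans (min_le_left _ _)
  have he1 : e ≤ 1 := l9.trans (min_le_right _ _)
  obtain ⟨Gd, hGd⟩ : ∃ Gd : ℝ, Gd = c * Real.log (4 * (2 * (C * 2 ^ X) + 1) + 1) := ⟨_, rfl⟩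
  have h2X : (1 : ℝ) ≤ 2 ^ X := one_le_pow₀ (by norm_num)
  have hC2 : 1 ≤ C * 2 ^ X := one_le_mul_of_one_le_of_one_le hC h2X
  have hXL : X * Real.log 2 ≤ X := mul_le_of_le_one_right hX0.le hL1
  have hgX1 : 0 < g * X := by positivity
  have hGd1 : Gd ≤ 2 * c * X := by
    rw [hGd]
    have := log_pow_le (A := 13 * C) (by linarith) X
      (y := 4 * (2 * (C * 2 ^ X) + 1) + 1) (by positivity) (by linarith only [hC2])
    have h4 : Real.log (4 * (2 * (C * 2 ^ X) + 1) + 1) ≤ 2 * X := by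
      linarith only [this, hXL, l5]
    calc c * Real.log (4 * (2 * (C * 2 ^ X) + 1) + 1) ≤ c * (2 * X) :=
          mul_le_mul_of_nonneg_left h4 hcR.le
      _ = 2 * c * X := by ring
  have hGd0 : 0 ≤ Gd := by
    rw [hGd]
    have : 0 ≤ Real.log (4 * (2 * (C * 2 ^ X) + 1) + 1) := Real.log_nonneg (by linarith)
    positivity
  obtain ⟨κ, hκ⟩ : ∃ κ : ℝ, κ = (4 * (io * X) / m + Gd / θ + 2) / (σ * X) +
    (2 * (σ * X) / γ + 2) * Real.exp (-(σ * X)) := ⟨_, rfl⟩
  have hκ0 : 0 ≤ κ := by rw [hκ]; positivity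
  have hκ4 : κ ≤ 4 * γ := by
    have k1 : 4 * (io * X) / m / (σ * X) ≤ γ := by
      rw [div_div, div_le_iff₀ (by positivity)]
      have := mul_le_mul_of_nonneg_right i3 hX0.le
      linarith only [this]
    have k2 : Gd / θ / (σ * X) ≤ γ := by
      rw [div_div, div_le_iff₀ (by positivity), hθ]
      have : γ * (2 * c / (σ * γ) * (σ * X)) = 2 * c * X := by field_simp
      rw [this]
      exact hGd1
    have k3 : 2 / (σ * X) ≤ γ := by
      rw [div_le_iff₀ (by positivity)]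
      linarith only [l7]
    have k4 : (2 * (σ * X) / γ + 2) * Real.exp (-(σ * X)) ≤ γ := by
      refine le_trans (le_of_eq ?_) l8
      ring
    have k5 : (4 * (io * X) / m + Gd / θ + 2) / (σ * X) =
        4 * (io * X) / m / (σ * X) + Gd / θ / (σ * X) + 2 / (σ * X) := by
      rw [add_div, add_div]
    rw [hκ, k5]
    linarith
  have hcore := prod_est (κ := κ) (δ := γ) (e := e)
    (M := max 0 (((c : ℝ) - 1 - x) * X * Real.log 2)) (t := ((c : ℝ) - 1 - x) * X * Real.log 2)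
    (N := c * X) hκ0 hγ0.le he0 he1 rfl (by
      refine max_le (by positivity) ?_
      have : ((c : ℝ) - 1 - x) * X ≤ c * X := mul_le_mul_of_nonneg_right (by linarith) hX0.le
      calc ((c : ℝ) - 1 - x) * X * Real.log 2 ≤ c * X * Real.log 2 :=
            mul_le_mul_of_nonneg_right this hL2.le
        _ ≤ c * X * 1 := mul_le_mul_of_nonneg_left hL1 (by positivity)
        _ = c * X := mul_one _)
  have hbL : bL c X x ε m μ = (1 - e) * max 0 (((c : ℝ) - 1 - x) * X * Real.log 2) := by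
    rw [he]
    rfl
  have hk1 : 1 - (4 * (io * X) / m + Gd / θ + 2) / (σ * X) -
      (2 * (σ * X) / γ + 2) * Real.exp (-(σ * X)) = 1 - κ := by
    rw [hκ]
    ring
  rw [← hμ, ← hGd, hk1, hbL] at key
  have E6 : (κ + γ + e) * (c * X) ≤ g / 8 * X := by
    have : (κ + γ + e) * (c * X) ≤ (6 * γ) * (c * X) :=
      mul_le_mul_of_nonneg_right (by linarith) (by positivity)
    have h3 : (6 * γ) * (c * X) = 6 * g / 64 * X := by
      rw [hγ]
      field_simp
    linarith only [this, h3, hgX1]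
  have E5 : bU c X C h ϖ m K ≤ (c - h) * X * Real.log 2 + g / 32 * X + g / 32 * X := by
    unfold bU
    have k1 : (c : ℝ) * Real.log (4 * (C * 2 ^ X) + 1) ≤ 2 * c * X := by
      have := log_pow_le (A := 13 * C) (by linarith) X
        (y := 4 * (C * 2 ^ X) + 1) (by positivity) (by linarith only [hC2])
      have h4 : Real.log (4 * (C * 2 ^ X) + 1) ≤ 2 * X := by linarith only [this, hXL, l5]
      calc (c : ℝ) * Real.log (4 * (C * 2 ^ X) + 1) ≤ c * (2 * X) :=
            mul_le_mul_of_nonneg_left h4 hcR.le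
        _ = 2 * c * X := by ring
    have k2 : 1 / m / K + 1 / m * ϖ ≤ g / (64 * c) := by
      have k3 : 1 / m / K ≤ g / (128 * c) := by
        rw [div_div, div_le_div_iff₀ (by positivity) (by positivity)]
        have : 128 * c / (m * g) ≤ K := by linarith
        rw [div_le_iff₀ (by positivity)] at this
        linarith only [this]
      have k4 : 1 / m * ϖ = g / (128 * c) := by
        rw [hϖ]
        field_simp
      have k5 : g / (128 * c) + g / (128 * c) = g / (64 * c) := by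
        field_simp
        ring
      linarith
    have k6 : (1 / m / K + 1 / m * ϖ) * (c * Real.log (4 * (C * 2 ^ X) + 1)) ≤
        g / (64 * c) * (2 * c * X) := by
      refine mul_le_mul k2 k1 ?_ (by positivity)
      have : 0 ≤ Real.log (4 * (C * 2 ^ X) + 1) := Real.log_nonneg (by linarith)
      positivity
    have k7 : g / (64 * c) * (2 * c * X) = g / 32 * X := by
      field_simp
      ring
    linarith
  have E1 : (η * X + |Cc c (c + 1)|) / m ≤ g / 32 * X + g / 32 * X := by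
    rw [add_div]
    have : η * X / m = g / 32 * X := by
      rw [hη]
      field_simp
    linarith
  have E3 : 4 * (io * X) / m ≤ g / 32 * X := by
    rw [div_le_iff₀ hm0]
    have := mul_le_mul_of_nonneg_right i2 hX0.le
    linarith only [this]
  have E7 : θ * (4 * (io * X) / m) ≤ g / 32 * X := by
    rw [← mul_div_assoc, div_le_iff₀ hm0]
    have h3 := mul_le_mul_of_nonneg_right i4 hX0.le
    have h4 : θ * (4 * (io * X)) ≤ θ * (4 * (g * m / (128 * θ) * X)) := by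
      refine mul_le_mul_of_nonneg_left ?_ hθ0.le
      linarith
    have h5 : θ * (4 * (g * m / (128 * θ) * X)) = g / 32 * X * m := by
      field_simp
      ring
    linarith
  have hlog : Real.log a₀ = -(x₀ * X) * Real.log 2 - Real.log (c * K1) := by
    rw [ha₀, Real.log_div (by positivity) (by positivity), Real.log_rpow (by norm_num)]
  rw [hlog] at key
  have m1 := le_abs_self (Cc c c)
  have m2 := le_abs_self (bC c C)
  have m3 := le_abs_self (Real.log (c * K1))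
  have hgX : g * X = (h - x - x₀) * Real.log 2 * X := by rw [hg]
  linarith only [key, hcore, E1, E3, E5, E6, E7, l3, l4, l10, m1, m2, m3, hgX, hgX1]

end Pool.TQ
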