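import Pool.Agent.H16.TT.Cor

/-!
# TQ: the inequality

`TqOk`: the heights `Z` of the tied coordinates over the record `R`, which is coarser than the
context `b`; they are not full given the record and the slow digits `Wd` (`b1`), and full modulo
every direction which is a function of the record, on all events of mass at least `exp (-(ε X))`
(`b2`). `tq_ineq`: the inequality which bounds the length of the body of three times.
-/

set_option autoImplicit false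

namespace Pool.TQ

open Finset Real Matrix
open Pool.Agent.H49.Ent Pool.Agent.H32.Dense Pool.STK Pool.POT Pool.FAD Pool.SLO Pool.QT64
open Pool.K2S (Pe)

variable {c k : ℕ}

/-- The hypotheses. -/
structure TqOk (H : QH c k) {ρ β : Type} (R : H.Ω → ρ) (Wd : H.Ω → β) (Z : H.Ω → Fin c → ℤ)
    (F : β → H.Tt → H.B → Fin c → ℝ) (X : ℕ) (C d h x ε ϖ : ℝ) : Prop where
  ok : H.OkN X C d
  bR : Det H.p H.b R
  Z_b : ∀ ω i, |(Z ω i : ℝ)| ≤ C * 2 ^ X
  rel : ∀ ω, 0 < H.p ω → ∀ i,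
    |(H.hgt ω i : ℝ) - (Z ω i - F (Wd ω) (H.th ω) (H.b ω) i)| ≤ C
  wd : CH H.p H.hgt (fun ω => (H.th ω, H.b ω)) -
    CH H.p H.hgt (fun ω => (Wd ω, (H.th ω, H.b ω))) ≤ d
  ir : CH H.p (fun ω => (Z ω, Wd ω)) R - CH H.p (fun ω => (Z ω, Wd ω)) H.b ≤ d
  b1 : ∀ B : H.Ω → Prop, ϖ ≤ Pe H.p B →
    CH (cond H.p B True) Z (fun ω => (Wd ω, R ω)) ≤ (c - h) * X * Real.log 2
  b2 : ∀ (i0 : Fin c) (f : ρ → Fin c → ℝ), (∀ r, f r i0 = 1 ∧ ∀ i, |f r i| ≤ 1) →
    ∀ B : H.Ω → Prop, Real.exp (-(ε * X)) ≤ Pe H.p B →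
    (c - 1 - x) * X * Real.log 2 ≤
      CH (cond H.p B True) (fun ω => pr i0 (f (R ω)) (Z ω)) (fun ω => (Wd ω, R ω))

/-- Directions with the pivot `i0`. -/
def Dr (i0 : Fin c) : Type := {κ : Fin c → ℝ // κ i0 = 1 ∧ ∀ i, |κ i| ≤ 1}

/-- The pivot of a matrix: the entry of largest absolute value. -/
theorem exists_pv (hc : 0 < c) (A : Matrix (Fin c) (Fin c) ℝ) :
    ∃ q : Fin c × Fin c, ∀ i j, |A i j| ≤ |A q.1 q.2| := by
  have : Nonempty (Fin c × Fin c) := ⟨(⟨0, hc⟩, ⟨0, hc⟩)⟩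
  obtain ⟨q, hq⟩ := Finite.exists_max (fun q : Fin c × Fin c => |A q.1 q.2|)
  exact ⟨q, fun i j => hq (i, j)⟩

/-- The pivot. -/
noncomputable def pv (hc : 0 < c) (A : Matrix (Fin c) (Fin c) ℝ) : Fin c × Fin c :=
  (exists_pv hc A).choose

theorem pv_max (hc : 0 < c) (A : Matrix (Fin c) (Fin c) ℝ) (i j : Fin c) :
    |A i j| ≤ |A (pv hc A).1 (pv hc A).2| := (exists_pv hc A).choose_spec i j

theorem exists_row {A : Matrix (Fin c) (Fin c) ℝ} (hA : A.det ≠ 0) (i0 : Fin c) :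
    ∃ j, A i0 j ≠ 0 := by
  by_contra h
  push Not at h
  exact hA (Matrix.det_eq_zero_of_row_eq_zero i0 h)

open Classical in
/-- The column: the pivot column if the pivot row is `i0`, some other nonzero column if not. -/
noncomputable def pb (hc : 0 < c) (i0 : Fin c) (A : Matrix (Fin c) (Fin c) ℝ) : Fin c :=
  if (pv hc A).1 = i0 then (pv hc A).2 else
    if h : ∃ j, A i0 j ≠ 0 then h.choose else i0

theorem pb_ne (hc : 0 < c) (i0 : Fin c) {A : Matrix (Fin c) (Fin c) ℝ} (hA : A.det ≠ 0) :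
    A i0 (pb hc i0 A) ≠ 0 := by
  unfold pb
  split_ifs with h1 h2
  · obtain ⟨j, hj⟩ := exists_row hA i0
    have := pv_max hc A i0 j
    rw [h1] at this
    intro h0
    rw [h0, abs_zero] at this
    exact hj (abs_eq_zero.1 (le_antisymm this (abs_nonneg _)))
  · exact h2.choose_spec
  · exact absurd (exists_row hA i0) h2

open Classical in
/-- The direction. -/
noncomputable def dr (hc : 0 < c) (i0 : Fin c) (A : Matrix (Fin c) (Fin c) ℝ) (i : Fin c) : ℝ :=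
  if A.det ≠ 0 ∧ (pv hc A).1 = i0 then A i (pb hc i0 A) / A i0 (pb hc i0 A)
  else if i = i0 then 1 else 0

theorem dr_ok (hc : 0 < c) (i0 : Fin c) (A : Matrix (Fin c) (Fin c) ℝ) :
    dr hc i0 A i0 = 1 ∧ ∀ i, |dr hc i0 A i| ≤ 1 := by
  unfold dr
  by_cases h : A.det ≠ 0 ∧ (pv hc A).1 = i0
  · have h0 := pb_ne hc i0 h.1
    simp only [if_pos h]
    refine ⟨div_self h0, fun i => ?_⟩
    rw [abs_div, div_le_one (abs_pos.2 h0)]
    have := pv_max hc A i (pb hc i0 A)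
    have e : pb hc i0 A = (pv hc A).2 := by
      unfold pb
      rw [if_pos h.2]
    rw [h.2] at this
    rw [e] at this ⊢
    exact this
  · simp only [if_neg h, if_true, true_and]
    intro i
    split_ifs <;> simp

/-- Counting. -/
theorem CH_cnt {Ω β : Type} [Fintype Ω] {q : Ω → ℝ} (hq : IsLaw q) (Z : Ω → Fin c → ℤ)
    (W : Ω → β) {M : ℝ} (h : ∀ ω, 0 < q ω → ∀ i, |(Z ω i : ℝ)| ≤ M) :
    CH q Z W ≤ c * Real.log (4 * M + 1) := by
  have h1 := CH_le_vec hq.nonneg hq.sum_one Z W (fun _ => 2 * M) (by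
    intro ω ω' a b _ i
    push_cast
    have h2 := h ω a i
    have h3 := h ω' b i
    rw [abs_le] at h2 h3 ⊢
    constructor <;> linarith)
  rw [Ex_const hq.sum_one] at h1
  refine h1.trans (le_of_eq ?_)
  ring_nf

variable {H : QH c k} {ρ β : Type} {R : H.Ω → ρ} {Wd : H.Ω → β} {Z : H.Ω → Fin c → ℤ}
  {F : β → H.Tt → H.B → Fin c → ℝ} {X : ℕ} {C d h x ε ϖ : ℝ}

theorem pr_bd {i0 : Fin c} {κ : Fin c → ℝ} (hκ : ∀ i, |κ i| ≤ 1) {n : Fin c → ℤ} {M : ℝ}
    (hM : 0 ≤ M) (h : ∀ i, |(n i : ℝ)| ≤ M) (i : Fin c) : |(pr i0 κ n i : ℝ)| ≤ 2 * M + 1 := by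
  unfold pr
  split_ifs
  · rw [Int.cast_zero, abs_zero]
    linarith
  · have h1 := h i
    have h2 : |κ i * (n i0 : ℝ)| ≤ M := by
      rw [abs_mul]
      calc |κ i| * |(n i0 : ℝ)| ≤ 1 * M := mul_le_mul (hκ i) (h i0) (abs_nonneg _) zero_le_one
        _ = M := one_mul M
    have h3 := Int.floor_le ((n i : ℝ) - κ i * n i0)
    have h4 := Int.lt_floor_add_one ((n i : ℝ) - κ i * n i0)
    rw [abs_le] at h1 h2 ⊢
    constructor <;> linarith

end Pool.TQ
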