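import Pool.Agent.H16.TT.TqA

/-!
# TQ: the inequality, proof
-/

set_option autoImplicit false

namespace Pool.TQ

open Finset Real Matrix
open Pool.Agent.H49.Ent Pool.Agent.H32.Dense Pool.STK Pool.POT Pool.FAD Pool.SLO Pool.QT64
open Pool.K2S (Pe)

variable {c k : ℕ}

/-- The upper bound of the entropy of the heights on the event. -/
noncomputable def bU (c : ℕ) (X : ℕ) (C h ϖ m : ℝ) (K : ℕ) : ℝ :=
  (c - h) * X * Real.log 2 + (1 / m / K + 1 / m * ϖ) * (c * Real.log (4 * (C * 2 ^ X) + 1)) +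
    Real.log (K + 1)

/-- The lower bound of the entropy of the quotients. -/
noncomputable def bL (c : ℕ) (X : ℕ) (x ε m μ : ℝ) : ℝ :=
  (1 - Real.exp (-(ε * X)) / (m * μ)) * max 0 ((c - 1 - x) * X * Real.log 2)

/-- The bounded terms. -/
noncomputable def bC (c : ℕ) (C : ℝ) : ℝ :=
  c * Real.log (2 * (2 * C) + 1) + c * Real.log (2 * (4 * C + 2) + 1)

variable {H : QH c k} {ρ β : Type} {R : H.Ω → ρ} {Wd : H.Ω → β} {Z : H.Ω → Fin c → ℤ}
  {F : β → H.Tt → H.B → Fin c → ℝ} {X : ℕ} {C d h x ε ϖ : ℝ}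

/-- The information of the time and of the line. -/
theorem okn_mi (ok : H.OkN X C d) : MI H.p H.th H.line H.b ≤ d := by
  have h0 := ok.h0
  unfold MI
  have : CH H.p H.th (fun ω => (H.line ω, H.b ω)) = CH H.p H.th H.line := by
    refine CH_congr ok.law.nonneg (fun _ _ _ _ e => (Prod.ext_iff.mp e).1)
      (fun _ _ _ _ e => (Prod.ext_iff.mp e).1) (fun ω ω' _ _ e => (Prod.ext_iff.mp e).1) ?_
    intro ω ω' _ _ e
    have e1 := Prod.ext_iff.mp e
    exact Prod.ext e (Prod.ext_iff.mp e1.2).2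
  rw [this]
  exact h0

theorem line_b (ω ω' : H.Ω) (e : H.line ω = H.line ω') : H.b ω = H.b ω' :=
  (Prod.ext_iff.mp (Prod.ext_iff.mp e).2).2

/-- **The inequality.** -/
theorem tq_ineq (hc : 0 < c) (hH : TqOk H R Wd Z F X C d h x ε ϖ) (hC : 1 ≤ C) (hh : h ≤ 1)
    (hϖ : 0 < ϖ) {A0 : H.Tt → H.Tt → H.Tt → Matrix (Fin c) (Fin c) ℝ}
    (hdet : ∀ t0 t1 t2, (A0 t0 t1 t2).det ≠ 0)
    (hinv : ∀ t0 t1 t2 i j, |(A0 t0 t1 t2)⁻¹ i j| ≤ 2 ^ X) {e₀ : ℝ}
    (hbody : DF (tup H.p H.line 3) (fun _ => Tx c X)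
        (fun w => A0 (H.th (w 1)) (H.th (w 2)) (H.th (w 3))) (fun w => xv X (H.hgt (w 0)))
        (fun w => (H.b (w 0), (H.th (w 0), (H.th (w 1), (H.th (w 2), H.th (w 3)))))) ≤ e₀)
    {i0 : Fin c} {G : H.Tt × (H.Tt × H.Tt) → Prop} {a₀ : ℝ} (ha₀ : 0 < a₀)
    (hG : ∀ t, G t → (pv hc (A0 t.1 t.2.1 t.2.2)).1 = i0 ∧
      a₀ ≤ |A0 t.1 t.2.1 t.2.2 i0 (pb hc i0 (A0 t.1 t.2.1 t.2.2))|)
    {m : ℝ} (hm : 0 < m)
    (hmG : m ≤ Pe (tup H.p H.line 3) fun w => G (H.th (w 1), (H.th (w 2), H.th (w 3))))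
    {s δ θ η₁ : ℝ} {K : ℕ} (hK : 0 < K) (hs : 0 < s) (hδ : 0 < δ) (hθ : 0 < θ) (hη : 0 < η₁)
    (hμ : Real.exp (-(ε * X)) ≤ m * (Real.exp (-(s + δ)) * η₁)) :
    Real.log a₀ + X * Real.log 2 - (e₀ + |Cc c (c + 1)|) / m - Cc c c ≤
      4 * d / m + bC c C + (bU c X C h ϖ m K -
        (1 - (4 * d / m + (c * Real.log (4 * (2 * (C * 2 ^ X) + 1) + 1)) / θ + 2) / s -
          (2 * s / δ + 2) * η₁) *
        (Real.exp (-δ) * bL c X x ε m (Real.exp (-(s + δ)) * η₁)) + θ * (4 * d / m)) := by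
  classical
  have ok := hH.ok
  have hp := ok.law
  set q := tup H.p H.line 3 with hq
  have hqL : IsLaw q := tup_isLaw hp H.line 3
  have hq0 := hqL.nonneg
  have him : Im q H.p (fun w => w 0) := im_tup hp.nonneg H.line 3 0
  set ts : (Fin (3 + 1) → H.Ω) → H.Tt × (H.Tt × H.Tt) :=
    fun w => (H.th (w 1), (H.th (w 2), H.th (w 3))) with hts
  set Gw : (Fin (3 + 1) → H.Ω) → Prop := fun w => G (ts w) with hGw
  set m' := Pe q Gw with hm'
  have hm'0 : 0 < m' := hm.trans_le hmG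
  have hmm : m ≤ m' := hmG
  set r := cond q Gw True with hr
  have hrL : IsLaw r := cond_law hq0 hm'0
  have hr0 := hrL.nonneg
  have hrq : ∀ w, 0 < r w → 0 < q w ∧ Gw w := fun w hw => by
    have := (cond_pos_iff hq0 Gw True w).1 hw
    exact ⟨this.1, of_eq_true this.2⟩
  have hrle : ∀ w, r w ≤ 1 / m * q w := fun w =>
    (cond_le hq0 w).trans (mul_le_mul_of_nonneg_right
      (one_div_le_one_div_of_le hm hmm) (hq0 w))
  have hlb : Det H.p H.line H.b := fun ω ω' _ _ e => line_b ω ω' e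
  have hd0 : 0 ≤ d := (MI_nonneg hp.nonneg _ _ _).trans (okn_mi ok)
  have hdm : 4 * d / m' ≤ 4 * d / m := div_le_div_of_nonneg_left (by positivity) hm hmm
  -- the informations
  have mi3 : ∀ {S : Type} (X' : H.Ω → S), MI q (fun w => X' (w 0)) ts (fun w => H.b (w 0)) ≤
      3 * d := fun X' => tup_mi3 hp.nonneg hlb (okn_mi ok) X'
  set Y : (Fin (3 + 1) → H.Ω) → H.B × (H.Tt × (H.Tt × (H.Tt × H.Tt))) :=
    fun w => (H.b (w 0), (H.th (w 0), (H.th (w 1), (H.th (w 2), H.th (w 3))))) with hY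
  have hdG : Det q Y Gw := by
    intro w w' _ _ e
    simp only [hY, hGw, hts, Prod.mk.injEq] at e ⊢
    rw [e.2.2.1, e.2.2.2.1, e.2.2.2.2]
  -- (ii) the fibre
  set A : (Fin (3 + 1) → H.Ω) → Matrix (Fin c) (Fin c) ℝ :=
    fun w => A0 (H.th (w 1)) (H.th (w 2)) (H.th (w 3)) with hA
  have hdA : Det q Y A := by
    intro w w' _ _ e
    simp only [hY, hA, Prod.mk.injEq] at e ⊢
    rw [e.2.2.1, e.2.2.2.1, e.2.2.2.2]
  have hdA' : Det r Y A := fun w w' a b e => hdA w w' (hrq w a).1 (hrq w' b).1 e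
  have f1 := DF_ev hqL (G := Gw) (T := fun _ => Tx c X) (V := A)
    (fun w => xv X (H.hgt (w 0))) Y hdG (fun _ _ _ _ _ => rfl) hdA (fun _ => Tx_det c X)
    (fun w => hdet _ _ _) (c := (c : ℝ) + 1) (by positivity)
    (fun w => inc_of_inv (hinv _ _ _)) hm'0
  have f2 : DF r (fun _ => Tx c X) A (fun w => xv X (H.hgt (w 0))) Y ≤ (e₀ + |Cc c (c + 1)|) / m := by
    refine f1.trans ?_
    have g1 : DF q (fun _ => Tx c X) A (fun w => xv X (H.hgt (w 0))) Y + |Cc c (c + 1)| ≤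
        e₀ + |Cc c (c + 1)| := by linarith [hbody]
    have g2 : 0 ≤ DF q (fun _ => Tx c X) A (fun w => xv X (H.hgt (w 0))) Y + |Cc c (c + 1)| := by
      have := DF_ge hqL.nonneg hqL.sum_one (T := fun _ => Tx c X) (V := A)
        (fun w => xv X (H.hgt (w 0))) Y (fun _ _ _ _ _ => rfl) hdA (fun _ => Tx_det c X)
        (fun w => hdet _ _ _) (c := (c : ℝ) + 1) (by positivity)
        (fun w => inc_of_inv (hinv _ _ _))
      have := le_abs_self (Cc c (c + 1))
      linarith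
    calc _ ≤ (e₀ + |Cc c (c + 1)|) / m' := div_le_div_of_nonneg_right g1 hm'0.le
      _ ≤ (e₀ + |Cc c (c + 1)|) / m := div_le_div_of_nonneg_left (g2.trans g1) hm hmm
  have f3 := fib hrL X (A := A) (fun w => H.hgt (w 0)) Y hdA' (fun w => hdet _ _ _)
    (fun w => hinv _ _ _) i0 (fun w => pb hc i0 (A w))
    (fun w w' a b e => by
      have := hdA' w w' a b e
      simp only [this]) (fun w => pb_ne hc i0 (hdet _ _ _))
  have f4 : Real.log a₀ ≤ Ex r (fun w => Real.log |A w i0 (pb hc i0 (A w))|) := by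
    rw [← Ex_const hrL.sum_one (Real.log a₀)]
    refine Ex_mono hr0 fun w hw => ?_
    exact Real.log_le_log ha₀ (hG _ (hrq w hw).2).2
  set κ : (Fin (3 + 1) → H.Ω) → Fin c → ℝ := fun w => dr hc i0 (A w) with hκ
  have f5 : CH r (fun w => H.hgt (w 0)) (fun w =>
      (pr i0 (fun i => A w i (pb hc i0 (A w)) / A w i0 (pb hc i0 (A w))) (H.hgt (w 0)), Y w)) =
      CH r (fun w => H.hgt (w 0)) (fun w => (pr i0 (κ w) (H.hgt (w 0)), Y w)) := by
    have g : ∀ w, 0 < r w → (fun i => A w i (pb hc i0 (A w)) / A w i0 (pb hc i0 (A w))) =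
        κ w := by
      intro w hw
      funext i
      have := (hG _ (hrq w hw).2).1
      simp only [hκ]
      unfold dr
      rw [if_pos ⟨hdet _ _ _, this⟩]
    refine CH_congr hr0 (fun _ _ _ _ e => (Prod.ext_iff.mp e).1)
      (fun _ _ _ _ e => (Prod.ext_iff.mp e).1) ?_ ?_
    · intro w w' a b e
      simp only at e ⊢
      rw [← g w a, ← g w' b]
      exact e
    · intro w w' a b e
      simp only at e ⊢
      rw [g w a, g w' b]
      exact e
  -- (iii), (iv)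
  have hdκ : Det r Y κ := fun w w' a b e => by
    have := hdA' w w' a b e
    simp only [hκ, this]
  have g1 := CH_fib hr0 (fun w => H.hgt (w 0)) (fun w => pr i0 (κ w) (H.hgt (w 0)))
    (fun w => Wd (w 0)) Y (by
      intro w w' a b e
      have e1 := Prod.ext_iff.mp e
      have e2 : H.hgt (w 0) = H.hgt (w' 0) := e1.1
      have e3 := hdκ w w' a b e1.2
      simp only [e2, e3])
  have g2 : MI q (fun w => H.hgt (w 0)) (fun w => Wd (w 0)) Y ≤ 4 * d := by
    have a1 : MI q (fun w => H.hgt (w 0)) (fun w => Wd (w 0)) Y ≤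
        MI q (fun w => H.hgt (w 0)) (fun w => (Wd (w 0), ts w))
          (fun w => (H.th (w 0), H.b (w 0))) := by
      have b1 := MI_cond_right hq0 (X := fun w => H.hgt (w 0))
        (Y := fun w => (Wd (w 0), ts w)) (B := ts) (Z := fun w => (H.th (w 0), H.b (w 0)))
        (fun w w' _ _ e => (Prod.ext_iff.mp (Prod.ext_iff.mp e).1).2)
      refine le_trans (le_of_eq ?_) b1
      refine MI_congr hq0 ?_ ?_ ?_ ?_ ?_ ?_ <;>
      · intro w w' _ _ e
        simp only [hY, hts, Prod.mk.injEq] at e ⊢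
        tauto
    have a2 := MI_chain hq0 (fun w => H.hgt (w 0)) (fun w => Wd (w 0)) ts
      (fun w => (H.th (w 0), H.b (w 0)))
    have a3 : MI q (fun w => H.hgt (w 0)) (fun w => Wd (w 0))
        (fun w => (H.th (w 0), H.b (w 0))) ≤ d := by
      rw [him.MI H.hgt Wd (fun ω => (H.th ω, H.b ω))]
      exact hH.wd
    have a4 : MI q (fun w => H.hgt (w 0)) ts (fun w => (Wd (w 0), (H.th (w 0), H.b (w 0)))) ≤
        3 * d := by
      refine le_trans ?_ (mi3 (fun ω => (H.hgt ω, (Wd ω, H.th ω))))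
      have b1 := MI_data hq0 (A := fun w => H.hgt (w 0)) (B := fun w => (Wd (w 0), H.th (w 0)))
        (X := fun w => (H.hgt (w 0), (Wd (w 0), H.th (w 0)))) (Y := ts)
        (Z := fun w => H.b (w 0))
        (fun w w' _ _ e => (Prod.ext_iff.mp (Prod.ext_iff.mp e).1).1)
        (fun w w' _ _ e => (Prod.ext_iff.mp (Prod.ext_iff.mp e).1).2)
      refine le_trans (le_of_eq ?_) b1
      refine MI_congr hq0 ?_ ?_ ?_ ?_ ?_ ?_ <;>
      · intro w w' _ _ e
        simp only [Prod.mk.injEq] at e ⊢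
        tauto
    linarith
  have g3 : MI r (fun w => H.hgt (w 0)) (fun w => Wd (w 0)) Y ≤ 4 * d / m := by
    have := MI_ev hqL (G := Gw) (fun w => H.hgt (w 0)) (fun w => Wd (w 0)) Y
      (fun w w' a b e => hdG w w' a b (Prod.ext_iff.mp e).2) hm'0
    refine this.trans (le_trans ?_ hdm)
    exact div_le_div_of_nonneg_right g2 hm'0.le
  -- (v)
  have hrp : ∀ w, 0 < r w → 0 < H.p (w 0) := fun w hw => him.pos hq0 (hrq w hw).1
  have g4 := CH_exch hrL (fun w => H.hgt (w 0)) (fun w => Z (w 0))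
    (fun w => pr i0 (κ w) (H.hgt (w 0))) (fun w => pr i0 (κ w) (Z (w 0)))
    (fun w => (Wd (w 0), Y w)) (a := 2 * C) (b := 4 * C + 2) (by
      intro w w' a b e1 e2 i
      simp only [hY, Prod.mk.injEq] at e2
      have h1 := hH.rel _ (hrp w a) i
      have h2 := hH.rel _ (hrp w' b) i
      have e1' : Z (w 0) = Z (w' 0) := e1
      rw [e1', e2.1, e2.2.1, e2.2.2.1] at h1
      push_cast
      rw [abs_le] at h1 h2 ⊢
      constructor <;> linarith [h1.1, h1.2, h2.1, h2.2]) (by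
      intro w w' a b e1 e2 i
      have e3 : κ w = κ w' := hdκ w w' a b (Prod.ext_iff.mp e2).2
      simp only [hY, Prod.mk.injEq] at e2
      by_cases hi : i = i0
      · simp only [pr, if_pos hi, sub_self, Int.cast_zero, abs_zero]
        linarith
      have e4 : pr i0 (κ w) (H.hgt (w 0)) i = pr i0 (κ w') (H.hgt (w' 0)) i := congrFun e1 i
      have hi1 := hH.rel _ (hrp w a) i
      have hi2 := hH.rel _ (hrp w' b) i
      have hj1 := hH.rel _ (hrp w a) i0
      have hj2 := hH.rel _ (hrp w' b) i0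
      rw [e2.1, e2.2.1, e2.2.2.1] at hi1 hj1
      have hκ1 : |κ w' i| ≤ 1 := (dr_ok hc i0 _).2 i
      simp only [pr, if_neg hi, e3] at e4 ⊢
      obtain ⟨t1, ht1⟩ : ∃ t : ℝ, t = (Z (w 0) i : ℝ) - κ w' i * Z (w 0) i0 := ⟨_, rfl⟩
      obtain ⟨t2, ht2⟩ : ∃ t : ℝ, t = (Z (w' 0) i : ℝ) - κ w' i * Z (w' 0) i0 := ⟨_, rfl⟩
      obtain ⟨u1, hu1⟩ : ∃ t : ℝ, t = (H.hgt (w 0) i : ℝ) - κ w' i * H.hgt (w 0) i0 := ⟨_, rfl⟩
      obtain ⟨u2, hu2⟩ : ∃ t : ℝ, t = (H.hgt (w' 0) i : ℝ) - κ w' i * H.hgt (w' 0) i0 :=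
        ⟨_, rfl⟩
      rw [← hu1, ← hu2] at e4
      rw [← ht1, ← ht2]
      have k1 := Int.floor_le u1
      have k2 := Int.lt_floor_add_one u1
      have k3 := Int.floor_le u2
      have k4 := Int.lt_floor_add_one u2
      have k5 := Int.floor_le t1
      have k6 := Int.lt_floor_add_one t1
      have k7 := Int.floor_le t2
      have k8 := Int.lt_floor_add_one t2
      have e5 : (⌊u1⌋ : ℝ) = ⌊u2⌋ := by exact_mod_cast e4
      -- errors
      obtain ⟨x1, hx1⟩ : ∃ t : ℝ, t = (H.hgt (w 0) i : ℝ) - (Z (w 0) i -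
        F (Wd (w' 0)) (H.th (w' 0)) (H.b (w' 0)) i) := ⟨_, rfl⟩
      obtain ⟨x2, hx2⟩ : ∃ t : ℝ, t = (H.hgt (w' 0) i : ℝ) - (Z (w' 0) i -
        F (Wd (w' 0)) (H.th (w' 0)) (H.b (w' 0)) i) := ⟨_, rfl⟩
      obtain ⟨y1, hy1⟩ : ∃ t : ℝ, t = (H.hgt (w 0) i0 : ℝ) - (Z (w 0) i0 -
        F (Wd (w' 0)) (H.th (w' 0)) (H.b (w' 0)) i0) := ⟨_, rfl⟩
      obtain ⟨y2, hy2⟩ : ∃ t : ℝ, t = (H.hgt (w' 0) i0 : ℝ) - (Z (w' 0) i0 -
        F (Wd (w' 0)) (H.th (w' 0)) (H.b (w' 0)) i0) := ⟨_, rfl⟩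
      rw [← hx1] at hi1
      rw [← hx2] at hi2
      rw [← hy1] at hj1
      rw [← hy2] at hj2
      have l1 : (t1 - t2) - (u1 - u2) = -(x1 - x2) + κ w' i * (y1 - y2) := by
        rw [ht1, ht2, hu1, hu2, hx1, hx2, hy1, hy2]
        ring
      have l2 : |κ w' i * (y1 - y2)| ≤ 2 * C := by
        rw [abs_mul]
        have l3 : |y1 - y2| ≤ 2 * C := by
          rw [abs_le] at hj1 hj2 ⊢
          constructor <;> linarith
        calc |κ w' i| * |y1 - y2| ≤ 1 * (2 * C) :=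
              mul_le_mul hκ1 l3 (abs_nonneg _) zero_le_one
          _ = 2 * C := one_mul _
      push_cast
      rw [abs_le] at hi1 hi2 l2 ⊢
      constructor <;> linarith)
  -- (vi) the record
  have hall : ∀ q' : H.Ω → ℝ, IsLaw q' → (∀ ω, 0 < q' ω → 0 < H.p ω) →
      CH q' Z (fun ω => (Wd ω, R ω)) ≤ c * Real.log (4 * (C * 2 ^ X) + 1) :=
    fun q' hq' _ => CH_cnt hq' Z _ fun ω _ i => hH.Z_b ω i
  have hGn : 0 ≤ (c : ℝ) * Real.log (4 * (C * 2 ^ X) + 1) := by
    have : 0 ≤ Real.log (4 * (C * 2 ^ X) + 1) := Real.log_nonneg (by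
      have : (0 : ℝ) ≤ C * 2 ^ X := by positivity
      linarith)
    positivity
  have hb1n : 0 ≤ ((c : ℝ) - h) * X * Real.log 2 := by
    have h1 : (1 : ℝ) ≤ c := by exact_mod_cast hc
    have h2 : 0 ≤ (c : ℝ) - h := by linarith
    have := Real.log_nonneg (show (1 : ℝ) ≤ 2 by norm_num)
    positivity
  have hup : CH r (fun w => Z (w 0)) (fun w => (Wd (w 0), R (w 0))) ≤ bU c X C h ϖ m K :=
    up_up him hp hrL (F := 1 / m) (m₀ := ϖ) (by positivity) hrle hϖ.le hb1n hGn Z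
      (fun ω => (Wd ω, R ω)) (fun B hB _ => hH.b1 B hB) hall hK
  -- the direction
  set L : (Fin (3 + 1) → H.Ω) → Dr i0 := fun w => ⟨κ w, dr_ok hc i0 _⟩ with hL
  have hdRb : Det q (fun w => H.b (w 0)) (fun w => R (w 0)) := him.det hq0 hH.bR
  have hI : CH r (fun w => (Z (w 0), Wd (w 0))) (fun w => R (w 0)) -
      CH r (fun w => (Z (w 0), Wd (w 0))) (fun w => (R (w 0), L w)) ≤ 4 * d / m := by
    have a1 : MI q (fun w => (Z (w 0), Wd (w 0))) (fun w => (H.b (w 0), ts w))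
        (fun w => R (w 0)) ≤ 4 * d := by
      have b1 := MI_chain hq0 (fun w => (Z (w 0), Wd (w 0))) (fun w => H.b (w 0)) ts
        (fun w => R (w 0))
      have b2 : MI q (fun w => (Z (w 0), Wd (w 0))) (fun w => H.b (w 0)) (fun w => R (w 0)) ≤
          d := by
        rw [him.MI (fun ω => (Z ω, Wd ω)) H.b R]
        have b3 := hH.ir
        unfold MI
        have b4 : CH H.p (fun ω => (Z ω, Wd ω)) (fun ω => (H.b ω, R ω)) =
            CH H.p (fun ω => (Z ω, Wd ω)) H.b := by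
          refine CH_congr hp.nonneg (fun _ _ _ _ e => (Prod.ext_iff.mp e).1)
            (fun _ _ _ _ e => (Prod.ext_iff.mp e).1) (fun _ _ _ _ e => (Prod.ext_iff.mp e).1) ?_
          intro ω ω' a b e
          exact Prod.ext e (hH.bR ω ω' a b e)
        rw [b4]
        exact b3
      have b5 : MI q (fun w => (Z (w 0), Wd (w 0))) ts (fun w => (H.b (w 0), R (w 0))) ≤
          3 * d := by
        refine le_trans (le_of_eq ?_) (mi3 (fun ω => (Z ω, Wd ω)))
        refine MI_congr hq0 ?_ ?_ ?_ ?_ ?_ ?_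
        · intro w w' _ _ e
          simp only [Prod.mk.injEq] at e ⊢
          tauto
        · intro w w' a b e
          have e1 := hdRb w w' a b (Prod.ext_iff.mp e).2
          simp only [Prod.mk.injEq] at e e1 ⊢
          tauto
        · intro w w' _ _ e
          simp only [Prod.mk.injEq] at e ⊢
          tauto
        · intro w w' a b e
          have e1 := hdRb w w' a b (Prod.ext_iff.mp e).2
          simp only [Prod.mk.injEq] at e e1 ⊢
          tauto
        · intro w w' _ _ e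
          exact (Prod.ext_iff.mp e).1
        · intro w w' a b e
          exact Prod.ext e (hdRb w w' a b e)
      linarith
    have a2 := MI_ev hqL (G := Gw) (fun w => (Z (w 0), Wd (w 0)))
      (fun w => (H.b (w 0), ts w)) (fun w => R (w 0)) (by
        intro w w' _ _ e
        have e1 := (Prod.ext_iff.mp (Prod.ext_iff.mp e).1).2
        simp only [hGw]
        exact congrArg G e1) hm'0
    have a3 : MI r (fun w => (Z (w 0), Wd (w 0))) L (fun w => R (w 0)) ≤
        MI r (fun w => (Z (w 0), Wd (w 0))) (fun w => (H.b (w 0), ts w)) (fun w => R (w 0)) := by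
      refine MI_le_right hr0 ?_
      intro w w' a b e
      have e1 := (Prod.ext_iff.mp (Prod.ext_iff.mp e).1).2
      simp only [hts, Prod.mk.injEq] at e1
      simp only [hL, hκ, hA, e1.1, e1.2.1, e1.2.2]
    have a4 : MI r (fun w => (Z (w 0), Wd (w 0))) L (fun w => R (w 0)) =
        CH r (fun w => (Z (w 0), Wd (w 0))) (fun w => R (w 0)) -
        CH r (fun w => (Z (w 0), Wd (w 0))) (fun w => (R (w 0), L w)) := by
      unfold MI
      congr 1
      refine CH_congr hr0 (fun _ _ _ _ e => (Prod.ext_iff.mp e).1)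
        (fun _ _ _ _ e => (Prod.ext_iff.mp e).1) ?_ ?_ <;>
      · intro w w' _ _ e
        exact Prod.ext (Prod.ext_iff.mp e).2 (Prod.ext_iff.mp e).1
    rw [← a4]
    refine a3.trans (a2.trans (le_trans ?_ hdm))
    exact div_le_div_of_nonneg_right a1 hm'0.le
  have hGc : CH r (fun w => pr i0 (L w).1 (Z (w 0))) (fun w => (Wd (w 0), (R (w 0), L w))) ≤
      c * Real.log (4 * (2 * (C * 2 ^ X) + 1) + 1) :=
    CH_cnt hrL _ _ fun w _ i => pr_bd (L w).2.2 (by positivity) (fun i => hH.Z_b (w 0) i) i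
  set μ := Real.exp (-(s + δ)) * η₁ with hμd
  have hμ0 : 0 < μ := by positivity
  have hLn : 0 ≤ bL c X x ε m μ := by
    unfold bL
    refine mul_nonneg ?_ (le_max_left _ _)
    rw [sub_nonneg, div_le_one (by positivity)]
    exact hμ
  have hHyp : ∀ f : ρ → Dr i0, ∀ B : (Fin (3 + 1) → H.Ω) → Prop, μ ≤ Pe r B → 0 < Pe r B →
      bL c X x ε m μ ≤ CH (cond r B True) (fun w => pr i0 (f (R (w 0))).1 (Z (w 0)))
        (fun w => (Wd (w 0), R (w 0))) := by
    intro f B hB hB0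
    have hBL : IsLaw (cond r B True) := cond_law hr0 hB0
    have hF : ∀ w, cond r B True w ≤ 1 / Pe r B * (1 / m) * q w := by
      intro w
      refine (cond_le hr0 w).trans ?_
      rw [mul_assoc]
      exact mul_le_mul_of_nonneg_left (hrle w) (by positivity)
    have h1 := up_low him hp hBL (F := 1 / Pe r B * (1 / m)) (m₀ := Real.exp (-(ε * X)))
      (b := max 0 (((c : ℝ) - 1 - x) * X * Real.log 2)) (by positivity) hF
      (Real.exp_pos _).le (le_max_left _ _) (fun ω => pr i0 (f (R ω)).1 (Z ω))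
      (fun ω => (Wd ω, R ω)) (fun B' hB' hB0' => max_le (CH_nonneg (cond_nonneg hp.nonneg _ _) _ _)
        (hH.b2 i0 (fun r => (f r).1) (fun r => (f r).2) B' hB'))
    refine le_trans ?_ h1
    unfold bL
    refine mul_le_mul_of_nonneg_right ?_ (le_max_left _ _)
    have h2 : 1 / Pe r B * (1 / m) * Real.exp (-(ε * X)) ≤ Real.exp (-(ε * X)) / (m * μ) := by
      rw [div_mul_div_comm, one_mul, mul_comm (1 / _), ← div_eq_mul_one_div]
      refine div_le_div_of_nonneg_left (Real.exp_pos _).le (by positivity) ?_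
      rw [mul_comm (Pe r B)]
      exact mul_le_mul_of_nonneg_left hB hm.le
    linarith
  have hend := Pool.TT.end_one hrL (fun w => R (w 0)) (fun w => Wd (w 0)) (fun w => Z (w 0)) L
    (fun w => (Wd (w 0), Y w)) (fun l : Dr i0 => pr i0 l.1) (ι := 4 * d / m) (θ := θ)
    (G := c * Real.log (4 * (2 * (C * 2 ^ X) + 1) + 1)) (s := s) (δ := δ) (η₁ := η₁)
    (b := bL c X x ε m μ) (b₁ := bU c X C h ϖ m K) (e₂ := 0) hI hGc hθ hs hδ hη.le hLn hHyp hup
    (by
      refine (CH_eq_zero hr0 ?_).le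
      intro w w' a b e
      have e1 := Prod.ext_iff.mp e
      have e2 := hdκ w w' a b e1.2
      have e3 : H.b (w 0) = H.b (w' 0) := (Prod.ext_iff.mp e1.2).1
      have e4 := hdRb w w' (hrq w a).1 (hrq w' b).1 e3
      have e5 : L w = L w' := Subtype.ext e2
      exact Prod.ext e1.1 (Prod.ext e4 e5))
  unfold bC
  have h9 : CH r (fun w => Z (w 0)) (fun w => (pr i0 (κ w) (Z (w 0)), (Wd (w 0), Y w))) ≤ _ :=
    hend
  linarith

end Pool.TQ
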