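import Pool.Agent.H16.TT.Tq
import Pool.Agent.H16.TT.TqG

/-!
# TQ, general form

`tg`: the body of `N` times is thin (its longest column is at most `2 ^ (-(x₀ X))`) with large
probability. `tqc`: the three-point vectors (BODY), with a coarse context.
-/

set_option autoImplicit false

namespace Pool.TQ

open Finset Real Matrix
open Pool.Agent.H49.Ent Pool.Agent.H32.Dense Pool.STK Pool.POT Pool.FAD Pool.SLO Pool.QT64
open Pool.K2S (Pe)

/-- The pivot entry. -/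
noncomputable def pe {c : ℕ} (hc : 0 < c) (A : Matrix (Fin c) (Fin c) ℝ) : ℝ :=
  |A (pv hc A).1 (pv hc A).2|

/-- The direction of the pivot column. -/
noncomputable def pd {c : ℕ} (hc : 0 < c) (A : Matrix (Fin c) (Fin c) ℝ) : Fin c → ℝ :=
  dr hc (pv hc A).1 A

theorem pe_pb {c : ℕ} (hc : 0 < c) {A : Matrix (Fin c) (Fin c) ℝ} {i0 : Fin c}
    (h : (pv hc A).1 = i0) : |A i0 (pb hc i0 A)| = pe hc A := by
  unfold pe pb
  rw [if_pos h, h]

/-- **TQ, general form.** -/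
theorem tg (c N : ℕ) (hc : 0 < c) {h x x₀ ε ε₀ : ℝ} (hh : 0 < h) (hh1 : h ≤ 1) (hx : 0 ≤ x)
    (hx₀ : 0 < x₀) (hxx : x + x₀ < h) (hε : 0 < ε) (hε₀ : 0 < ε₀) :
    ∃ io ϖ η : ℝ, 0 < io ∧ 0 < ϖ ∧ 0 < η ∧ ∀ C : ℝ, 1 ≤ C → ∃ X0 : ℕ,
    ∀ (Ω Λ τ B B0 ρ β E : Type) [Fintype Ω] (p : Ω → ℝ) (L : Ω → Λ) (th : Ω → τ) (b : Ω → B)
      (b0 : Ω → B0) (hgt : Ω → Fin c → ℤ) (R : Ω → ρ) (Wd : Ω → β) (Z : Ω → Fin c → ℤ)
      (Q : E → β → ρ → (Fin c → ℤ) → Fin c → ℤ) (X : ℕ), X0 ≤ X →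
      TgOk p L th b b0 hgt R Wd Z Q X C (io * X) h x ε ϖ →
    ∀ (A0 : (Fin N → τ) → Matrix (Fin c) (Fin c) ℝ), (∀ t, (A0 t).det ≠ 0) →
      (∀ t i j, |(A0 t)⁻¹ i j| ≤ 2 ^ X) →
      DF (tup p L N) (fun _ => Tx c X) (fun w => A0 fun j => th (w j.succ))
        (fun w => xv X (hgt (w 0)))
        (fun w => (b (w 0), (th (w 0), fun j : Fin N => th (w j.succ)))) ≤ η * X →
    ∀ (G : B0 → (Fin N → τ) → Prop) (dir : B0 → (Fin N → τ) → E),
      (∀ s t, G s t → (2 : ℝ) ^ (-(x₀ * X)) ≤ pe hc (A0 t)) →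
      (∀ t ω ω', 0 < p ω → 0 < p ω' → G (b0 ω) t → Wd ω = Wd ω' → th ω = th ω' → b ω = b ω' →
        pr (pv hc (A0 t)).1 (pd hc (A0 t)) (hgt ω) =
          pr (pv hc (A0 t)).1 (pd hc (A0 t)) (hgt ω') →
        ∀ i, |((Q (dir (b0 ω) t) (Wd ω) (R ω) (Z ω) i -
          Q (dir (b0 ω') t) (Wd ω') (R ω') (Z ω') i : ℤ) : ℝ)| ≤ C) →
      Pe (tup p L N) (fun w => G (b0 (w 0)) fun j => th (w j.succ)) ≤ ε₀ := by
  classical
  have hcR : (0 : ℝ) < c := by exact_mod_cast hc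
  have hc1 : (1 : ℝ) ≤ c := by exact_mod_cast hc
  have hNR : (0 : ℝ) < (N : ℝ) + 1 := by positivity
  have hL2 : 0 < Real.log 2 := Real.log_pos (by norm_num)
  have hL1 : Real.log 2 ≤ 1 := by linarith [Real.log_two_lt_d9]
  obtain ⟨g, hg⟩ : ∃ g : ℝ, g = (h - x - x₀) * Real.log 2 := ⟨_, rfl⟩
  have hg0 : 0 < g := by
    rw [hg]
    exact mul_pos (by linarith) hL2
  obtain ⟨m, hm⟩ : ∃ m : ℝ, m = ε₀ / c := ⟨_, rfl⟩
  have hm0 : 0 < m := by rw [hm]; positivity
  obtain ⟨γ, hγ⟩ : ∃ γ : ℝ, γ = g / (64 * c) := ⟨_, rfl⟩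
  have hγ0 : 0 < γ := by rw [hγ]; positivity
  obtain ⟨σ, hσ⟩ : ∃ σ : ℝ, σ = ε / 4 := ⟨_, rfl⟩
  have hσ0 : 0 < σ := by rw [hσ]; positivity
  obtain ⟨θ, hθ⟩ : ∃ θ : ℝ, θ = 2 * c / (σ * γ) := ⟨_, rfl⟩
  have hθ0 : 0 < θ := by rw [hθ]; positivity
  obtain ⟨η, hη⟩ : ∃ η : ℝ, η = m * g / 32 := ⟨_, rfl⟩
  have hη0 : 0 < η := by rw [hη]; positivity
  obtain ⟨K, hK⟩ := exists_nat_ge (128 * c / (m * g) + 1)
  have hK0 : 0 < K := by
    have h1 : 0 < 128 * c / (m * g) + 1 := by positivity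
    have h2 : (0 : ℝ) < K := h1.trans_le hK
    exact_mod_cast h2
  have hKR : (0 : ℝ) < K := by exact_mod_cast hK0
  obtain ⟨ϖ, hϖ⟩ : ∃ ϖ : ℝ, ϖ = m * g / (128 * c) := ⟨_, rfl⟩
  have hϖ0 : 0 < ϖ := by rw [hϖ]; positivity
  obtain ⟨io', hio'⟩ : ∃ io' : ℝ, io' = min (m * g / 32)
    (min (m * σ * γ) (g * m / (32 * θ))) := ⟨_, rfl⟩
  have hio'0 : 0 < io' := by
    rw [hio']
    refine lt_min (by positivity) (lt_min (by positivity) (by positivity))
  have i2 : io' ≤ m * g / 32 := hio' ▸ min_le_left _ _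
  have i3 : io' ≤ m * σ * γ := hio' ▸ (min_le_right _ _).trans (min_le_left _ _)
  have i4 : io' ≤ g * m / (32 * θ) := hio' ▸ (min_le_right _ _).trans (min_le_right _ _)
  refine ⟨io' / (N + 1), ϖ, η, by positivity, hϖ0, hη0, fun C hC => ?_⟩
  have hC0 : 0 < C := by linarith
  -- large X
  obtain ⟨X2, l2⟩ := ex_lin (a := g / 32) (b := |Cc c (c + 1)| / m) (by positivity)
  obtain ⟨X3, l3⟩ := ex_lin (a := g / 32) (b := |Cc c c|) (by positivity)
  obtain ⟨X4, l4⟩ := ex_lin (a := g / 32) (b := |bD c C|) (by positivity)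
  obtain ⟨X5, l5⟩ := ex_lin (a := (1 : ℝ)) (b := Real.log (13 * C)) one_pos
  obtain ⟨X6, l6⟩ := ex_lin (a := g / 32) (b := Real.log (K + 1)) (by positivity)
  obtain ⟨X7, l7⟩ := ex_lin (a := σ * γ) (b := 2) (by positivity)
  obtain ⟨X8, l8⟩ := ex_exp (a := σ) (A := 2 * σ / γ) (B := 2) (g := γ) hσ0
    (by norm_num) hγ0
  obtain ⟨X9, l9⟩ := ex_exp (a := ε / 2) (A := 0) (B := Real.exp γ / m) (g := min γ 1)
    (by positivity) (by positivity) (lt_min hγ0 one_pos)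
  refine ⟨max (max (max 1 X2) (max X3 X4)) (max (max X5 X6) (max (max X7 X8) X9)), ?_⟩
  intro Ω Λ τ B B0 ρ β E _ p L th b b0 hgt R Wd Z Q X hX hH A0 hdet hinv hbody G dir hlong hex
  have a0 := (max_le_iff.1 hX).1
  have a1 := (max_le_iff.1 hX).2
  have b1 := (max_le_iff.1 a0).1
  have b2 := (max_le_iff.1 a0).2
  have b3 := (max_le_iff.1 a1).1
  have b4 := (max_le_iff.1 a1).2
  replace l2 := l2 X (max_le_iff.1 b1).2
  replace l3 := l3 X (max_le_iff.1 b2).1
  replace l4 := l4 X (max_le_iff.1 b2).2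
  replace l5 := l5 X (max_le_iff.1 b3).1
  replace l6 := l6 X (max_le_iff.1 b3).2
  replace l7 := l7 X (max_le_iff.1 (max_le_iff.1 b4).1).1
  replace l8 := l8 X (max_le_iff.1 (max_le_iff.1 b4).1).2
  replace l9 := l9 X (max_le_iff.1 b4).2
  have hX1 : (1 : ℝ) ≤ X := by exact_mod_cast (max_le_iff.1 b1).1
  have hX0 : (0 : ℝ) < X := by linarith
  have hd : ((N : ℝ) + 1) * (io' / (N + 1) * X) = io' * X := by field_simp
  by_contra hcon
  push Not at hcon
  obtain ⟨i0, hi0⟩ := Pe_pig hc _ (fun w => (pv hc (A0 fun j => th (w j.succ))).1) hcon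
  obtain ⟨a₀, ha₀⟩ : ∃ a₀ : ℝ, a₀ = (2 : ℝ) ^ (-(x₀ * X)) := ⟨_, rfl⟩
  have ha₀0 : 0 < a₀ := by rw [ha₀]; positivity
  have key := tg_ineq hc hH hC hh1 hϖ0 (A0 := A0) hdet hinv hbody (i0 := i0)
    (G := fun s t => G s t ∧ (pv hc (A0 t)).1 = i0) (dir := dir) ha₀0 (by
        rintro s t ⟨ht, hi⟩
        refine ⟨hi, ?_⟩
        rw [pe_pb hc hi, ha₀]
        exact hlong s t ht) (by
        rintro t ω ω' h1 h2 ⟨h3, hi⟩ h4 h5 h6 h7 i
        refine hex t ω ω' h1 h2 h3 h4 h5 h6 ?_ i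
        unfold pd
        rw [hi]
        exact h7) hm0 (hm ▸ hi0) (s := σ * X) (δ := γ) (θ := θ)
    (η₁ := Real.exp (-(σ * X))) hK0 (by positivity) hγ0 hθ0 (Real.exp_pos _) (by
      have e1 : Real.exp (-(σ * X + γ)) * Real.exp (-(σ * X)) =
          Real.exp (-(ε * X)) * (Real.exp (ε / 2 * X) / Real.exp γ) := by
        rw [← Real.exp_sub, ← Real.exp_add, ← Real.exp_add, hσ]
        congr 1
        ring
      rw [e1]
      have e2 : Real.exp γ / m ≤ Real.exp (ε / 2 * X) := by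
        have := l9.trans (min_le_right _ _)
        rw [zero_mul, zero_add, Real.exp_neg, inv_mul_le_iff₀ (Real.exp_pos _), mul_one] at this
        exact this
      rw [div_le_iff₀ hm0] at e2
      have e3 : 1 ≤ m * (Real.exp (ε / 2 * X) / Real.exp γ) := by
        rw [← mul_div_assoc, le_div_iff₀ (Real.exp_pos _)]
        linarith
      calc Real.exp (-(ε * X)) = Real.exp (-(ε * X)) * 1 := (mul_one _).symm
        _ ≤ Real.exp (-(ε * X)) * (m * (Real.exp (ε / 2 * X) / Real.exp γ)) :=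
            mul_le_mul_of_nonneg_left e3 (Real.exp_pos _).le
        _ = _ := by ring)
  rw [hd] at key
  -- the terms
  obtain ⟨μ, hμ⟩ : ∃ μ : ℝ, μ = Real.exp (-(σ * X + γ)) * Real.exp (-(σ * X)) := ⟨_, rfl⟩
  obtain ⟨e, he⟩ : ∃ e : ℝ, e = Real.exp (-(ε * X)) / (m * μ) := ⟨_, rfl⟩
  have he' : e = Real.exp (-(ε / 2 * X)) * (0 * X + Real.exp γ / m) := by
    rw [he, hμ, ← Real.exp_add, zero_mul, zero_add, div_eq_iff (by positivity)]
    have : Real.exp (-(ε / 2 * X)) * (Real.exp γ / m) *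
        (m * Real.exp (-(σ * X + γ) + -(σ * X))) =
        Real.exp (-(ε / 2 * X)) * Real.exp γ * Real.exp (-(σ * X + γ) + -(σ * X)) := by
      field_simp
    rw [this, ← Real.exp_add, ← Real.exp_add, hσ]
    congr 1
    ring
  rw [← he'] at l9
  have he0 : 0 ≤ e := by rw [he, hμ]; positivity
  have heγ : e ≤ γ := l9.trans (min_le_left _ _)
  have he1 : e ≤ 1 := l9.trans (min_le_right _ _)
  obtain ⟨Gd, hGd⟩ : ∃ Gd : ℝ, Gd = c * Real.log (4 * (C * 2 ^ X) + 1) := ⟨_, rfl⟩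
  have h2X : (1 : ℝ) ≤ 2 ^ X := one_le_pow₀ (by norm_num)
  have hC2 : 1 ≤ C * 2 ^ X := one_le_mul_of_one_le_of_one_le hC h2X
  have hXL : X * Real.log 2 ≤ X := mul_le_of_le_one_right hX0.le hL1
  have hgX1 : 0 < g * X := by positivity
  have hGd1 : Gd ≤ 2 * c * X := by
    rw [hGd]
    have := log_pow_le (A := 13 * C) (by linarith) X
      (y := 4 * (C * 2 ^ X) + 1) (by positivity) (by linarith only [hC2])
    have h4 : Real.log (4 * (C * 2 ^ X) + 1) ≤ 2 * X := by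
      linarith only [this, hXL, l5]
    calc c * Real.log (4 * (C * 2 ^ X) + 1) ≤ c * (2 * X) :=
          mul_le_mul_of_nonneg_left h4 hcR.le
      _ = 2 * c * X := by ring
  have hGd0 : 0 ≤ Gd := by
    rw [hGd]
    have : 0 ≤ Real.log (4 * (C * 2 ^ X) + 1) := Real.log_nonneg (by linarith)
    positivity
  obtain ⟨κ, hκ⟩ : ∃ κ : ℝ, κ = (io' * X / m + Gd / θ + 2) / (σ * X) +
    (2 * (σ * X) / γ + 2) * Real.exp (-(σ * X)) := ⟨_, rfl⟩
  have hκ0 : 0 ≤ κ := by rw [hκ]; positivity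
  have hκ4 : κ ≤ 4 * γ := by
    have k1 : io' * X / m / (σ * X) ≤ γ := by
      rw [div_div, div_le_iff₀ (by positivity)]
      have := mul_le_mul_of_nonneg_right i3 hX0.le
      linarith only [this]
    have k2 : Gd / θ / (σ * X) ≤ γ := by
      rw [div_div, div_le_iff₀ (by positivity), hθ]
      have : γ * (2 * c / (σ * γ) * (σ * X)) = 2 * c * X := by field_simp
      rw [this]
      exact hGd1
    have k3 : 2 / (σ * X) ≤ γ := by
      rw [div_le_iff₀ (by positivity)]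
      linarith only [l7]
    have k4 : (2 * (σ * X) / γ + 2) * Real.exp (-(σ * X)) ≤ γ := by
      refine le_trans (le_of_eq ?_) l8
      ring
    have k5 : (io' * X / m + Gd / θ + 2) / (σ * X) =
        io' * X / m / (σ * X) + Gd / θ / (σ * X) + 2 / (σ * X) := by
      rw [add_div, add_div]
    rw [hκ, k5]
    linarith
  have hcore := prod_est (κ := κ) (δ := γ) (e := e)
    (M := max 0 (((c : ℝ) - 1 - x) * X * Real.log 2)) (t := ((c : ℝ) - 1 - x) * X * Real.log 2)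
    (N := c * X) hκ0 hγ0.le he0 he1 rfl (by
      refine max_le (by positivity) ?_
      have : ((c : ℝ) - 1 - x) * X ≤ c * X := mul_le_mul_of_nonneg_right (by linarith) hX0.le
      calc ((c : ℝ) - 1 - x) * X * Real.log 2 ≤ c * X * Real.log 2 :=
            mul_le_mul_of_nonneg_right this hL2.le
        _ ≤ c * X * 1 := mul_le_mul_of_nonneg_left hL1 (by positivity)
        _ = c * X := mul_one _)
  have hbL : bL c X x ε m μ = (1 - e) * max 0 (((c : ℝ) - 1 - x) * X * Real.log 2) := by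
    rw [he]
    rfl
  have hk1 : 1 - (io' * X / m + Gd / θ + 2) / (σ * X) -
      (2 * (σ * X) / γ + 2) * Real.exp (-(σ * X)) = 1 - κ := by
    rw [hκ]
    ring
  rw [← hμ, ← hGd, hk1, hbL] at key
  have E6 : (κ + γ + e) * (c * X) ≤ g / 8 * X := by
    have : (κ + γ + e) * (c * X) ≤ (6 * γ) * (c * X) :=
      mul_le_mul_of_nonneg_right (by linarith) (by positivity)
    have h3 : (6 * γ) * (c * X) = 6 * g / 64 * X := by
      rw [hγ]
      field_simp
    linarith only [this, h3, hgX1]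
  have E5 : bU c X C h ϖ m K ≤ (c - h) * X * Real.log 2 + g / 32 * X + g / 32 * X := by
    unfold bU
    rw [← hGd]
    have k2 : 1 / m / K + 1 / m * ϖ ≤ g / (64 * c) := by
      have k3 : 1 / m / K ≤ g / (128 * c) := by
        rw [div_div, div_le_div_iff₀ (by positivity) (by positivity)]
        have : 128 * c / (m * g) ≤ K := by linarith
        rw [div_le_iff₀ (by positivity)] at this
        linarith only [this]
      have k4 : 1 / m * ϖ = g / (128 * c) := by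
        rw [hϖ]
        field_simp
      have k5 : g / (128 * c) + g / (128 * c) = g / (64 * c) := by
        field_simp
        ring
      linarith
    have k6 : (1 / m / K + 1 / m * ϖ) * Gd ≤ g / (64 * c) * (2 * c * X) :=
      mul_le_mul k2 hGd1 hGd0 (by positivity)
    have k7 : g / (64 * c) * (2 * c * X) = g / 32 * X := by
      field_simp
      ring
    linarith
  have E1 : (η * X + |Cc c (c + 1)|) / m ≤ g / 32 * X + g / 32 * X := by
    rw [add_div]
    have : η * X / m = g / 32 * X := by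
      rw [hη]
      field_simp
    linarith
  have E3 : io' * X / m ≤ g / 32 * X := by
    rw [div_le_iff₀ hm0]
    have := mul_le_mul_of_nonneg_right i2 hX0.le
    linarith only [this]
  have E7 : θ * (io' * X / m) ≤ g / 32 * X := by
    rw [← mul_div_assoc, div_le_iff₀ hm0]
    have h3 := mul_le_mul_of_nonneg_right i4 hX0.le
    have h4 : θ * (io' * X) ≤ θ * (g * m / (32 * θ) * X) := mul_le_mul_of_nonneg_left h3 hθ0.le
    have h5 : θ * (g * m / (32 * θ) * X) = g / 32 * X * m := by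
      field_simp
    linarith
  have hlog : Real.log a₀ = -(x₀ * X) * Real.log 2 := by
    rw [ha₀, Real.log_rpow (by norm_num)]
  rw [hlog] at key
  have m1 := le_abs_self (Cc c c)
  have m2 := le_abs_self (bD c C)
  have hgX : g * X = (h - x - x₀) * Real.log 2 * X := by rw [hg]
  linarith only [key, hcore, E1, E3, E5, E6, E7, l3, l4, m1, m2, hgX, hgX1]

end Pool.TQ
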